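import Pool.Agent.V7H4.CT.A
import Pool.Agent.Q11.CZ.Art

/-!
# Exact criterion: the class functions of all CM types

`G` is a finite group with a central involution `c`, acting on `X`; `c` has no fixed points.  A
linear form (test function) vanishes on the class functions of all half-systems if and only if it
vanishes on the differences `D c x y`; and it vanishes on all sums over half-systems if and only if
it vanishes on the symmetric sums `D c x y + D c y x`.
-/

set_option autoImplicit false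

open scoped Classical

namespace Pool.Agent.V7H4.EC

open Pool.Agent.Q11.CZ Pool.Agent.N770.CP Pool.Agent.V7H4.CT

variable {G : Type} [Group G] [Fintype G] {X : Type} [MulAction G X] {c : G}

/-- the value of a test function at a function -/
noncomputable def pr (τ f : G → ℚ) : ℚ := ∑ g, τ g * f g

/-- the values of a test function at the differences of the numbers of conjugates -/
noncomputable def N (c : G) (τ : G → ℚ) (x y : X) : ℚ := ∑ g, τ g * (D c x y g : ℚ)

lemma N_right (hc2 : c * c = 1) (τ : G → ℚ) (x y : X) : N c τ x (c • y) = -N c τ x y := by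
  unfold N
  rw [← Finset.sum_neg_distrib]
  refine Finset.sum_congr rfl fun g _ => ?_
  rw [D_right hc2]
  push_cast
  ring

lemma N_left (hc : ∀ g, c * g = g * c) (hc2 : c * c = 1) (τ : G → ℚ) (x y : X) :
    N c τ (c • x) y = -N c τ x y := by
  unfold N
  rw [← Finset.sum_neg_distrib]
  refine Finset.sum_congr rfl fun g _ => ?_
  rw [D_left hc hc2]
  push_cast
  ring

lemma N_smul (hc : ∀ g, c * g = g * c) (τ : G → ℚ) (k : G) (x y : X) :
    N c τ (k • x) (k • y) = N c τ x y := by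
  unfold N
  refine Finset.sum_congr rfl fun g _ => ?_
  rw [D_smul hc]

lemma a0_formula (hc : ∀ g, c * g = g * c) (hc2 : c * c = 1) (x : X) {Φ : Finset X}
    (hΦ : IsHalf c Φ) (g : G) :
    (a0 x Φ g : ℚ) = 1 / 2 + (∑ y ∈ Φ, (D c x y g : ℚ)) / (2 * Fintype.card G) := by
  have hG : (Fintype.card G : ℚ) ≠ 0 := card_ne
  have key : a0 x Φ g - a0 x Φ (c * g) = (∑ y ∈ Φ, (D c x y g : ℚ)) / Fintype.card G := by
    rw [a0_cnt, a0_cnt, ← sub_div, ← Finset.sum_sub_distrib]
    congr 1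
    refine Finset.sum_congr rfl (fun y _ => ?_)
    unfold D
    push_cast
    rw [cnt_c hc x y hc2]
  have h1 := a0_add hc x hΦ g
  have h2 : (a0 x Φ g : ℚ) = 1 / 2 + (a0 x Φ g - a0 x Φ (c * g)) / 2 := by linarith
  rw [h2, key]
  field_simp

lemma T_formula (hc : ∀ g, c * g = g * c) (hc2 : c * c = 1) {Φ : Finset X}
    (hΦ : IsHalf c Φ) (g : G) :
    (T Φ g : ℚ) = Φ.card / 2 + (∑ x ∈ Φ, ∑ y ∈ Φ, (D c x y g : ℚ)) / (2 * Fintype.card G) := by
  unfold T
  rw [Finset.sum_congr rfl fun x _ => a0_formula hc hc2 x hΦ g, Finset.sum_add_distrib,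
    Finset.sum_const, ← Finset.sum_div, nsmul_eq_mul]
  ring

lemma pr_a0 (hc : ∀ g, c * g = g * c) (hc2 : c * c = 1) {τ : G → ℚ} (h0 : ∑ g, τ g = 0) (x : X)
    {Φ : Finset X} (hΦ : IsHalf c Φ) :
    pr τ (a0 x Φ) = (∑ y ∈ Φ, N c τ x y) / (2 * Fintype.card G) := by
  unfold pr N
  rw [Finset.sum_comm, Finset.sum_div]
  have h1 : ∀ g : G, τ g * a0 x Φ g = τ g * (1 / 2) +
      (∑ y ∈ Φ, τ g * (D c x y g : ℚ)) / (2 * Fintype.card G) := by
    intro g
    rw [a0_formula hc hc2 x hΦ g, ← Finset.mul_sum]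
    ring
  rw [Finset.sum_congr rfl fun g _ => h1 g, Finset.sum_add_distrib, ← Finset.sum_mul, h0, zero_mul,
    zero_add]

lemma pr_T (hc : ∀ g, c * g = g * c) (hc2 : c * c = 1) {τ : G → ℚ} (h0 : ∑ g, τ g = 0)
    {Φ : Finset X} (hΦ : IsHalf c Φ) :
    pr τ (T Φ) = (∑ x ∈ Φ, ∑ y ∈ Φ, N c τ x y) / (2 * Fintype.card G) := by
  have h1 : pr τ (T Φ) = ∑ x ∈ Φ, pr τ (a0 x Φ) := by
    unfold pr T
    rw [Finset.sum_comm]
    exact Finset.sum_congr rfl fun g _ => Finset.mul_sum _ _ _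
  rw [h1, Finset.sum_congr rfl fun x _ => pr_a0 hc hc2 h0 x hΦ, ← Finset.sum_div]

/-- replacing one element of a half-system by its image under `c` -/
noncomputable def tog (c : G) (Φ : Finset X) (x : X) : Finset X := insert (c • x) (Φ.erase x)

omit [Fintype G] in
lemma tog_half [Fintype X] (hc2 : c * c = 1) (hfree : ∀ x : X, c • x ≠ x) {Φ : Finset X}
    (hΦ : IsHalf c Φ) {x : X} (hx : x ∈ Φ) : IsHalf c (tog c Φ x) := by
  intro z
  have h1 : c • z = c • x ↔ z = x := ⟨fun h => (MulAction.injective c) h, fun h => by rw [h]⟩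
  have h2 : c • z = x ↔ z = c • x := by
    constructor
    · intro h
      rw [← h, smul_smul_c hc2]
    · intro h
      rw [h, smul_smul_c hc2]
  unfold tog
  rw [Finset.mem_insert, Finset.mem_erase, Finset.mem_insert, Finset.mem_erase, h1, Ne, h2, hΦ z]
  constructor
  · rintro (rfl | ⟨h3, h4⟩)
    · rintro (h5 | ⟨h5, -⟩)
      · exact hfree z h5.symm
      · exact h5 rfl
    · rintro (h5 | ⟨-, h5⟩)
      · exact h3 h5
      · exact h4 h5
  · intro h3
    by_cases h4 : z = x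
    · exact Or.inl h4
    · exact Or.inr ⟨fun h5 => h3 (Or.inl h5), fun h5 => h3 (Or.inr ⟨h4, h5⟩)⟩

omit [Fintype G] in
lemma tog_sum {Φ : Finset X} (hΦ : IsHalf c Φ) {x : X} (hx : x ∈ Φ) (F : X → ℚ)
    (hF : ∀ y, F (c • y) = -F y) : ∑ y ∈ tog c Φ x, F y = ∑ y ∈ Φ, F y - 2 * F x := by
  have h1 : c • x ∉ Φ.erase x := fun h => ((hΦ x).1 (Finset.mem_of_mem_erase h)) hx
  unfold tog
  rw [Finset.sum_insert h1, hF, Finset.sum_erase_eq_sub hx]
  ring

omit [Fintype G] in
lemma mem_tog {Φ : Finset X} {x y : X} (hy : y ∈ Φ) (hxy : y ≠ x) : y ∈ tog c Φ x := by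
  unfold tog
  rw [Finset.mem_insert, Finset.mem_erase]
  exact Or.inr ⟨hxy, hy⟩

omit [Fintype G] in
lemma mem_or {Φ : Finset X} (hΦ : IsHalf c Φ) (x : X) : x ∈ Φ ∨ c • x ∈ Φ := by
  by_cases h : x ∈ Φ
  · exact Or.inl h
  · exact Or.inr ((hΦ x).2 h)

omit [Fintype G] in
lemma exists_mem_half [Fintype X] (hc2 : c * c = 1) (hfree : ∀ x : X, c • x ≠ x) (x : X) :
    ∃ Φ : Finset X, IsHalf c Φ ∧ x ∈ Φ := by
  obtain ⟨Φ, hΦ⟩ := exists_half (X := X) hc2 hfree
  rw [mem_halves] at hΦ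
  rcases mem_or hΦ x with h | h
  · exact ⟨Φ, hΦ, h⟩
  · refine ⟨tog c Φ (c • x), tog_half hc2 hfree hΦ h, ?_⟩
    unfold tog
    rw [smul_smul_c hc2]
    exact Finset.mem_insert_self _ _

omit [Fintype G] in
lemma exists_mem_half_two [Fintype X] (hc2 : c * c = 1) (hfree : ∀ x : X, c • x ≠ x) {x y : X}
    (h1 : y ≠ c • x) : ∃ Φ : Finset X, IsHalf c Φ ∧ x ∈ Φ ∧ y ∈ Φ := by
  obtain ⟨Φ, hΦ, hx⟩ := exists_mem_half (X := X) hc2 hfree x
  rcases mem_or hΦ y with h | h
  · exact ⟨Φ, hΦ, hx, h⟩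
  · refine ⟨tog c Φ (c • y), tog_half hc2 hfree hΦ h, mem_tog hx ?_, ?_⟩
    · intro h2
      apply h1
      rw [h2, smul_smul_c hc2]
    · unfold tog
      rw [smul_smul_c hc2]
      exact Finset.mem_insert_self _ _

/-- **All class functions.** -/
theorem a0_iff [Fintype X] (hc : ∀ g, c * g = g * c) (hc2 : c * c = 1)
    (hfree : ∀ x : X, c • x ≠ x) {τ : G → ℚ} (h0 : ∑ g, τ g = 0) :
    (∀ Φ : Finset X, IsHalf c Φ → ∀ x : X, pr τ (a0 x Φ) = 0) ↔ ∀ x y : X, N c τ x y = 0 := by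
  have hG : (Fintype.card G : ℚ) ≠ 0 := card_ne
  constructor
  · intro h x y
    have h1 : ∀ Φ : Finset X, IsHalf c Φ → ∑ y ∈ Φ, N c τ x y = 0 := by
      intro Φ hΦ
      have h2 := h Φ hΦ x
      rw [pr_a0 hc hc2 h0 x hΦ, div_eq_zero_iff] at h2
      rcases h2 with h2 | h2
      · exact h2
      · exact absurd h2 (mul_ne_zero two_ne_zero hG)
    obtain ⟨Φ, hΦ, hy⟩ := exists_mem_half (X := X) hc2 hfree y
    have h3 := tog_sum hΦ hy (fun y => N c τ x y) (fun y => N_right hc2 τ x y)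
    rw [h1 Φ hΦ, h1 _ (tog_half hc2 hfree hΦ hy)] at h3
    linarith
  · intro h Φ hΦ x
    rw [pr_a0 hc hc2 h0 x hΦ, Finset.sum_eq_zero fun y _ => h x y, zero_div]

/-- **All sums over half-systems.** -/
theorem T_iff [Fintype X] [MulAction.IsPretransitive G X] (hc : ∀ g, c * g = g * c)
    (hc2 : c * c = 1) (hfree : ∀ x : X, c • x ≠ x) {τ : G → ℚ} (h0 : ∑ g, τ g = 0) :
    (∀ Φ : Finset X, IsHalf c Φ → pr τ (T Φ) = 0) ↔
      ∀ x y : X, N c τ x y + N c τ y x = 0 := by
  have hG : (Fintype.card G : ℚ) ≠ 0 := card_ne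
  constructor
  · intro h
    set F : X → X → ℚ := fun x y => N c τ x y with hF
    have hr : ∀ x y, F x (c • y) = -F x y := fun x y => N_right hc2 τ x y
    have hl : ∀ x y, F (c • x) y = -F x y := fun x y => N_left hc hc2 τ x y
    have h1 : ∀ Φ : Finset X, IsHalf c Φ → ∑ x ∈ Φ, ∑ y ∈ Φ, F x y = 0 := by
      intro Φ hΦ
      have h2 := h Φ hΦ
      rw [pr_T hc hc2 h0 hΦ, div_eq_zero_iff] at h2
      rcases h2 with h2 | h2
      · exact h2
      · exact absurd h2 (mul_ne_zero two_ne_zero hG)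
    -- one change
    have h2 : ∀ Φ : Finset X, IsHalf c Φ → ∀ u ∈ Φ,
        ∑ x ∈ Φ, F x u + ∑ y ∈ Φ, F u y - 2 * F u u = 0 := by
      intro Φ hΦ u hu
      have h3 := h1 _ (tog_half hc2 hfree hΦ hu)
      have h4 : ∀ x, ∑ y ∈ tog c Φ u, F x y = ∑ y ∈ Φ, F x y - 2 * F x u :=
        fun x => tog_sum hΦ hu (F x) (hr x)
      rw [tog_sum hΦ hu (fun x => ∑ y ∈ tog c Φ u, F x y) (fun x => by
        rw [← Finset.sum_neg_distrib]
        exact Finset.sum_congr rfl fun y _ => hl x y)] at h3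
      simp only [h4] at h3
      rw [Finset.sum_sub_distrib, h1 Φ hΦ, ← Finset.mul_sum] at h3
      linarith
    -- two changes
    have h3 : ∀ u v : X, v ≠ u → v ≠ c • u → F u v + F v u = 0 := by
      intro u v h4 h5
      obtain ⟨Φ, hΦ, hu, hv⟩ := exists_mem_half_two (X := X) hc2 hfree h5
      have h6 := h2 Φ hΦ u hu
      have h7 := h2 _ (tog_half hc2 hfree hΦ hv) u (mem_tog hu h4.symm)
      rw [tog_sum hΦ hv (fun x => F x u) (fun x => hl x u),
        tog_sum hΦ hv (fun y => F u y) (fun y => hr u y)] at h7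
      linarith
    -- the diagonal
    have h4 : ∀ u : X, F u u = 0 := by
      intro u
      obtain ⟨Φ, hΦ, hu⟩ := exists_mem_half (X := X) hc2 hfree u
      have h5 : ∀ x, F x x = F u u := by
        intro x
        obtain ⟨k, rfl⟩ := MulAction.exists_smul_eq G u x
        exact N_smul hc τ k u u
      have h6 : ∑ x ∈ Φ, ∑ y ∈ Φ, (F x y + F y x) = 0 := by
        have e1 : ∑ x ∈ Φ, ∑ y ∈ Φ, (F x y + F y x) =
            ∑ x ∈ Φ, ∑ y ∈ Φ, F x y + ∑ x ∈ Φ, ∑ y ∈ Φ, F y x := by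
          rw [← Finset.sum_add_distrib]
          exact Finset.sum_congr rfl fun x _ => Finset.sum_add_distrib
        rw [e1, Finset.sum_comm (f := fun x y => F y x), h1 Φ hΦ, add_zero]
      have h7 : ∀ x ∈ Φ, ∑ y ∈ Φ, (F x y + F y x) = 2 * F u u := by
        intro x hx
        rw [Finset.sum_eq_single x, h5 x]
        · ring
        · intro y hy hyx
          refine h3 x y hyx fun h8 => ?_
          rw [h8] at hy
          exact (hΦ x).1 hy hx
        · exact fun h8 => absurd hx h8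
      rw [Finset.sum_congr rfl h7, Finset.sum_const, nsmul_eq_mul] at h6
      have h8 : (Φ.card : ℚ) ≠ 0 := by
        have : 0 < Φ.card := Finset.card_pos.2 ⟨u, hu⟩
        exact_mod_cast this.ne'
      rcases mul_eq_zero.1 h6 with h9 | h9
      · exact absurd h9 h8
      · linarith
    intro x y
    by_cases h5 : y = x
    · subst h5
      have := h4 y
      simp only [hF] at this
      rw [this, add_zero]
    by_cases h6 : y = c • x
    · subst h6
      have h7 := h4 x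
      simp only [hF] at h7
      rw [N_right hc2, N_left hc hc2, h7, neg_zero, add_zero]
    exact h3 x y h5 h6
  · intro h Φ hΦ
    rw [pr_T hc hc2 h0 hΦ]
    have h1 : ∑ x ∈ Φ, ∑ y ∈ Φ, N c τ x y = 0 := by
      have e1 : ∑ x ∈ Φ, ∑ y ∈ Φ, N c τ x y + ∑ x ∈ Φ, ∑ y ∈ Φ, N c τ x y =
          ∑ x ∈ Φ, ∑ y ∈ Φ, (N c τ x y + N c τ y x) := by
        conv_lhs => rhs; rw [Finset.sum_comm]
        rw [← Finset.sum_add_distrib]
        exact Finset.sum_congr rfl fun x _ => Finset.sum_add_distrib.symm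
      rw [Finset.sum_eq_zero fun x _ => Finset.sum_eq_zero fun y _ => h x y] at e1
      linarith
    rw [h1, zero_div]

/-- the reversed test function -/
def rev (τ : G → ℚ) : G → ℚ := fun g => τ g⁻¹

lemma D_swap (hc2 : c * c = 1) (x y : X) (g : G) :
    D c y x g = D c x y g⁻¹ := by
  have h1 : ∀ (x y : X) (g : G), cnt y x g = cnt x y g⁻¹ := by
    intro x y g
    unfold cnt
    congr 1
    ext k
    simp only [Finset.mem_filter, Finset.mem_univ, true_and]
    have h2 : k⁻¹ * g⁻¹ * k = (k⁻¹ * g * k)⁻¹ := by group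
    rw [h2, inv_smul_eq_iff]
    exact eq_comm
  have h3 : cnt x (c • y) g⁻¹ = cnt (c • x) y g⁻¹ := by
    have h4 := cnt_smul (X := X) c x (c • y) g⁻¹
    rw [← mul_smul, hc2, one_smul] at h4
    exact h4.symm
  unfold D
  rw [h1 x y, h1 (c • x) y, h3]

lemma N_swap (hc2 : c * c = 1) (τ : G → ℚ) (x y : X) :
    N c τ y x = N c (rev τ) x y := by
  unfold N rev
  rw [← Equiv.sum_comp (Equiv.inv G)]
  refine Finset.sum_congr rfl fun g _ => ?_
  rw [D_swap hc2 x y]
  simp

lemma N_add (τ τ' : G → ℚ) (x y : X) : N c (τ + τ') x y = N c τ x y + N c τ' x y := by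
  unfold N
  rw [← Finset.sum_add_distrib]
  refine Finset.sum_congr rfl fun g _ => ?_
  rw [Pi.add_apply, add_mul]

end Pool.Agent.V7H4.EC
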