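import Pool.Agent.V7H4.EC.A
import Mathlib.RepresentationTheory.Irreducible
import Mathlib.RepresentationTheory.Character
import Mathlib.RepresentationTheory.Maschke
import Mathlib.RepresentationTheory.Semisimple

/-!
# Exact criterion: the test functions and the odd irreducible representations
-/

set_option autoImplicit false

open scoped Classical

namespace Pool.Agent.V7H4.EC

open Pool.Agent.Q11.CZ Pool.Agent.N770.CP Pool.Agent.V7H4.CT

variable {G : Type} [Group G] [Fintype G] {X : Type} [MulAction G X] {c : G}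

section op

variable {W : Type} [AddCommGroup W] [Module ℂ W] (ρ : Representation ℂ G W)

/-- the central operator given by a test function -/
noncomputable def Aop (τ : G → ℚ) : W →ₗ[ℂ] W := ∑ g, (τ g : ℂ) • ∑ k : G, ρ (k⁻¹ * g * k)

lemma Aop_apply (τ : G → ℚ) (w : W) :
    Aop ρ τ w = ∑ g, (τ g : ℂ) • ∑ k : G, ρ (k⁻¹ * g * k) w := by
  unfold Aop
  rw [LinearMap.sum_apply]
  refine Finset.sum_congr rfl fun g _ => ?_
  rw [LinearMap.smul_apply, LinearMap.sum_apply]

lemma Aop_comm (τ : G → ℚ) (h : G) (w : W) : Aop ρ τ (ρ h w) = ρ h (Aop ρ τ w) := by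
  rw [Aop_apply, Aop_apply, map_sum]
  refine Finset.sum_congr rfl fun g _ => ?_
  rw [map_smul, map_sum]
  congr 1
  refine Fintype.sum_equiv (Equiv.mulRight h⁻¹).symm _ _ (fun k => ?_)
  have h1 : (Equiv.mulRight h⁻¹).symm k = k * h := by
    simp
  rw [h1, ← Module.End.mul_apply, ← Module.End.mul_apply, ← map_mul, ← map_mul]
  congr 2
  group

lemma trace_Aop (τ : G → ℚ) : LinearMap.trace ℂ W (Aop ρ τ) =
    Fintype.card G * ∑ g, (τ g : ℂ) * ρ.character g := by
  unfold Aop
  rw [map_sum, Finset.mul_sum]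
  refine Finset.sum_congr rfl fun g _ => ?_
  rw [map_smul, map_sum]
  have h1 : ∀ k ∈ (Finset.univ : Finset G),
      LinearMap.trace ℂ W (ρ (k⁻¹ * g * k)) = ρ.character g := by
    intro k _
    have := Representation.char_conj ρ g k⁻¹
    rw [inv_inv] at this
    exact this
  rw [Finset.sum_congr rfl h1, Finset.sum_const, nsmul_eq_mul, smul_eq_mul, Finset.card_univ]
  ring

/-- Schur's lemma -/
lemma schur [FiniteDimensional ℂ W] (hρ : ρ.IsIrreducible) (f : W →ₗ[ℂ] W)
    (hf : ∀ (h : G) (w : W), f (ρ h w) = ρ h (f w)) : ∃ t : ℂ, ∀ w, f w = t • w := by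
  have h1 := @Representation.IsIrreducible.algebraMap_intertwiningMap_bijective_of_isAlgClosed
    G ℂ W _ _ _ _ ρ hρ _ _
  obtain ⟨t, ht⟩ := h1.2 ⟨f, fun g => LinearMap.ext fun v => hf g v⟩
  refine ⟨t, fun w => ?_⟩
  have h2 := congrArg (fun F : Representation.IntertwiningMap ρ ρ => F w) ht
  simpa using h2.symm

omit [Fintype G] in
lemma finrank_ne [FiniteDimensional ℂ W] (hρ : ρ.IsIrreducible) :
    (Module.finrank ℂ W : ℂ) ≠ 0 := by
  have h1 : Nontrivial W := by
    by_contra h
    rw [not_nontrivial_iff_subsingleton] at h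
    have h2 : (⊥ : Subrepresentation ρ) ≠ ⊤ := hρ.bot_ne_top
    apply h2
    ext w
    constructor
    · intro _
      trivial
    · intro _
      rw [Subsingleton.elim w 0]
      exact Submodule.zero_mem _
  have h2 : 0 < Module.finrank ℂ W := Module.finrank_pos
  exact_mod_cast h2.ne'

/-- The operator vanishes iff the scalar product with the character does. -/
lemma Aop_eq_zero_iff [FiniteDimensional ℂ W] (hρ : ρ.IsIrreducible) (τ : G → ℚ) :
    (∀ w, Aop ρ τ w = 0) ↔ ∑ g, (τ g : ℂ) * ρ.character g = 0 := by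
  have hG : (Fintype.card G : ℂ) ≠ 0 := by
    have : 0 < Fintype.card G := Fintype.card_pos
    exact_mod_cast this.ne'
  obtain ⟨t, ht⟩ := schur ρ hρ (Aop ρ τ) (Aop_comm ρ τ)
  have h1 : Aop ρ τ = t • LinearMap.id := by
    ext w
    rw [ht w]
    simp
  have h2 := trace_Aop ρ τ
  rw [h1, map_smul, LinearMap.trace_id, smul_eq_mul] at h2
  constructor
  · intro h
    have h3 : Aop ρ τ = 0 := LinearMap.ext h
    have h4 := trace_Aop ρ τ
    rw [h3, map_zero] at h4
    rcases mul_eq_zero.1 h4.symm with h5 | h5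
    · exact absurd h5 hG
    · exact h5
  · intro h w
    rw [h, mul_zero] at h2
    rcases mul_eq_zero.1 h2 with h3 | h3
    · rw [ht, h3, zero_smul]
    · exact absurd h3 (finrank_ne ρ hρ)

/-- an irreducible representation with `c = -1` and a nonzero vector fixed by the stabiliser
of `x` -/
def OddFix (c : G) (x : X) : Prop :=
  ρ.IsIrreducible ∧ (∀ w, ρ c w = -w) ∧ ∃ w : W, w ≠ 0 ∧ ∀ g : G, g • x = x → ρ g w = w

end op

omit [Fintype G] in
/-- the vectors `wv y`, equivariant in `y` -/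
lemma exists_wv [MulAction.IsPretransitive G X] (x₀ : X) {W : Type} [AddCommGroup W] [Module ℂ W]
    (ρ : Representation ℂ G W) {w : W} (hw : ∀ g : G, g • x₀ = x₀ → ρ g w = w) :
    ∃ wv : X → W, wv x₀ = w ∧ ∀ (g : G) (y : X), wv (g • y) = ρ g (wv y) := by
  have h1 : ∀ y : X, ∃ g : G, g • x₀ = y := fun y => MulAction.exists_smul_eq G x₀ y
  choose r hr using h1
  have key : ∀ g g' : G, g • x₀ = g' • x₀ → ρ g w = ρ g' w := by
    intro g g' h
    have h2 : (g'⁻¹ * g) • x₀ = x₀ := by rw [mul_smul, h, inv_smul_smul]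
    have h3 := hw _ h2
    have h4 : ρ g w = ρ g' (ρ (g'⁻¹ * g) w) := by
      rw [← Module.End.mul_apply, ← map_mul]
      congr 2
      group
    rw [h4, h3]
  refine ⟨fun y => ρ (r y) w, ?_, fun g y => ?_⟩
  · have := hw (r x₀) (hr x₀)
    exact this
  · show ρ (r (g • y)) w = ρ g (ρ (r y) w)
    rw [← Module.End.mul_apply, ← map_mul]
    apply key
    rw [hr, mul_smul, hr]

/-- the operator on the equivariant vectors -/
lemma Aop_wv [Fintype X] (hc2 : c * c = 1) {W : Type} [AddCommGroup W] [Module ℂ W]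
    (ρ : Representation ℂ G W) (hρc : ∀ w, ρ c w = -w) (τ : G → ℚ)
    {wv : X → W} (hwv : ∀ (g : G) (y : X), wv (g • y) = ρ g (wv y)) (x : X) :
    (2 : ℂ) • Aop ρ τ (wv x) = ∑ y, ((N c τ x y : ℚ) : ℂ) • wv y := by
  have h1 : ∀ g : G, ∑ k : G, ρ (k⁻¹ * g * k) (wv x) = ∑ y, (cnt x y g : ℂ) • wv y := by
    intro g
    have h2 : ∀ k : G, ρ (k⁻¹ * g * k) (wv x) =
        ∑ y, (if (k⁻¹ * g * k) • x = y then (1 : ℂ) else 0) • wv y := by
      intro k
      rw [Finset.sum_eq_single ((k⁻¹ * g * k) • x)]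
      · rw [if_pos rfl, one_smul, hwv]
      · intro y _ hy
        rw [if_neg (fun h => hy h.symm), zero_smul]
      · intro h
        exact absurd (Finset.mem_univ _) h
    rw [Finset.sum_congr rfl fun k _ => h2 k, Finset.sum_comm]
    refine Finset.sum_congr rfl fun y _ => ?_
    rw [← Finset.sum_smul, Finset.sum_boole]
    rfl
  have h3 : Aop ρ τ (wv x) = ∑ y, (∑ g, (τ g : ℂ) * (cnt x y g : ℂ)) • wv y := by
    rw [Aop_apply, Finset.sum_congr rfl fun g _ => by rw [h1 g, Finset.smul_sum], Finset.sum_comm]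
    refine Finset.sum_congr rfl fun y _ => ?_
    rw [Finset.sum_smul]
    refine Finset.sum_congr rfl fun g _ => ?_
    rw [smul_smul]
  have h4 : Aop ρ τ (wv x) = ∑ y, (-∑ g, (τ g : ℂ) * (cnt x (c • y) g : ℂ)) • wv y := by
    rw [h3]
    refine Fintype.sum_equiv (MulAction.toPerm c) _ _ (fun y => ?_)
    rw [MulAction.toPerm_apply, smul_smul_c hc2, hwv, hρc]
    rw [neg_smul_neg]
  rw [two_smul]
  conv_lhs => rw [h3]
  conv_lhs => lhs; rw [← h3]
  conv_lhs => rhs; rw [← h3, h4]
  rw [h3, ← Finset.sum_add_distrib]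
  refine Finset.sum_congr rfl fun y _ => ?_
  rw [← add_smul]
  congr 1
  unfold N D
  push_cast
  rw [← sub_eq_add_neg, ← Finset.sum_sub_distrib]
  refine Finset.sum_congr rfl fun g _ => ?_
  ring

end Pool.Agent.V7H4.EC
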