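import Pool.Agent.V7H4.EC.B

/-!
# Exact criterion: the permutation representation
-/

set_option autoImplicit false

open scoped Classical

namespace Pool.Agent.V7H4.EC

open Pool.Agent.Q11.CZ Pool.Agent.N770.CP Pool.Agent.V7H4.CT

variable {G : Type} [Group G] [Fintype G] {X : Type} [MulAction G X] {c : G}

variable (G X) in
/-- the permutation representation on functions -/
noncomputable def perm : Representation ℂ G (X → ℂ) where
  toFun g := LinearMap.funLeft ℂ ℂ (fun x => g⁻¹ • x)
  map_one' := by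
    ext f x
    simp [LinearMap.funLeft_apply]
  map_mul' g h := by
    ext f x
    simp [LinearMap.funLeft_apply, mul_smul]

omit [Fintype G] in
lemma perm_apply (g : G) (f : X → ℂ) (x : X) : perm G X g f x = f (g⁻¹ • x) := rfl

lemma Aop_sub {W : Type} [AddCommGroup W] [Module ℂ W] (ρ : Representation ℂ G W)
    (S : Subrepresentation ρ) (τ : G → ℚ) (w : S.toSubmodule) :
    ((Aop S.toRepresentation τ w : S.toSubmodule) : W) = Aop ρ τ (w : W) := by
  rw [Aop_apply, Aop_apply, Submodule.coe_sum]
  refine Finset.sum_congr rfl fun g _ => ?_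
  rw [Submodule.coe_smul, Submodule.coe_sum]
  rfl

omit [Fintype G] in
/-- the kernel of an equivariant map -/
noncomputable def kerSub {W : Type} [AddCommGroup W] [Module ℂ W] (ρ : Representation ℂ G W)
    (B : W →ₗ[ℂ] W) (hB : ∀ (h : G) (w : W), B (ρ h w) = ρ h (B w)) : Subrepresentation ρ where
  toSubmodule := LinearMap.ker B
  apply_mem_toSubmodule g v hv := by
    rw [LinearMap.mem_ker] at hv ⊢
    rw [hB, hv, map_zero]

omit [Fintype G] in
/-- the image of a subrepresentation of a subrepresentation -/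
noncomputable def mapSub {W : Type} [AddCommGroup W] [Module ℂ W] (ρ : Representation ℂ G W)
    (S : Subrepresentation ρ) (T : Subrepresentation S.toRepresentation) :
    Subrepresentation ρ where
  toSubmodule := T.toSubmodule.map S.toSubmodule.subtype
  apply_mem_toSubmodule g v hv := by
    rw [Submodule.mem_map] at hv ⊢
    obtain ⟨t, ht, rfl⟩ := hv
    exact ⟨S.toRepresentation g t, T.apply_mem_toSubmodule g ht, rfl⟩

omit [Fintype G] in
/-- a nonzero subrepresentation contains an irreducible one -/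
lemma exists_irr {W : Type} [AddCommGroup W] [Module ℂ W] [FiniteDimensional ℂ W]
    (ρ : Representation ℂ G W) (C : Subrepresentation ρ) (hC : C.toSubmodule ≠ ⊥) :
    ∃ S : Subrepresentation ρ, S.toSubmodule ≤ C.toSubmodule ∧ S.toSubmodule ≠ ⊥ ∧
      S.toRepresentation.IsIrreducible := by
  have hex : ∃ n : ℕ, ∃ S : Subrepresentation ρ, S.toSubmodule ≤ C.toSubmodule ∧
      S.toSubmodule ≠ ⊥ ∧ Module.finrank ℂ S.toSubmodule = n :=
    ⟨_, C, le_refl _, hC, rfl⟩
  obtain ⟨S, hS1, hS2, hS3⟩ := Nat.find_spec hex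
  refine ⟨S, hS1, hS2, ?_⟩
  have hnt : Nontrivial (Subrepresentation S.toRepresentation) := by
    refine ⟨⟨⊥, ⊤, fun h => ?_⟩⟩
    apply hS2
    rw [Submodule.eq_bot_iff]
    intro x hx
    have h1 : (⟨x, hx⟩ : S.toSubmodule) ∈ (⊥ : Subrepresentation S.toRepresentation) := by
      rw [h]
      trivial
    have h2 : (⟨x, hx⟩ : S.toSubmodule) = 0 := h1
    exact congrArg Subtype.val h2
  refine { eq_bot_or_eq_top := fun T => ?_ }
  by_cases hT : (mapSub ρ S T).toSubmodule = ⊥
  · left
    apply Subrepresentation.toSubmodule_injective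
    change T.toSubmodule = ⊥
    have h1 : T.toSubmodule.map S.toSubmodule.subtype = ⊥ := hT
    rw [Submodule.eq_bot_iff]
    intro x hx
    have h2 : (x : W) ∈ T.toSubmodule.map S.toSubmodule.subtype := ⟨x, hx, rfl⟩
    rw [h1, Submodule.mem_bot] at h2
    exact Subtype.ext h2
  · right
    have hle : (mapSub ρ S T).toSubmodule ≤ S.toSubmodule := Submodule.map_subtype_le _ _
    have h1 : Nat.find hex ≤ Module.finrank ℂ (mapSub ρ S T).toSubmodule :=
      Nat.find_min' hex ⟨_, hle.trans hS1, hT, rfl⟩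
    have h2 : (mapSub ρ S T).toSubmodule = S.toSubmodule :=
      Submodule.eq_of_le_of_finrank_le hle (by rw [hS3]; exact h1)
    apply Subrepresentation.toSubmodule_injective
    change T.toSubmodule = ⊤
    rw [Submodule.eq_top_iff']
    intro x
    have h3 : (x : W) ∈ T.toSubmodule.map S.toSubmodule.subtype := by
      have h4 : (mapSub ρ S T).toSubmodule = T.toSubmodule.map S.toSubmodule.subtype := rfl
      rw [← h4, h2]
      exact x.2
    rw [Submodule.mem_map] at h3
    obtain ⟨t, ht, htx⟩ := h3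
    have h4 : t = x := Subtype.ext htx
    rwa [← h4]

/-- an equivariant map which vanishes on all irreducible subrepresentations is zero -/
lemma eq_zero_of_irr {W : Type} [AddCommGroup W] [Module ℂ W] [FiniteDimensional ℂ W]
    (ρ : Representation ℂ G W) (B : W →ₗ[ℂ] W)
    (hB : ∀ (h : G) (w : W), B (ρ h w) = ρ h (B w))
    (h : ∀ S : Subrepresentation ρ, S.toSubmodule ≠ ⊥ → S.toRepresentation.IsIrreducible →
      ∀ w ∈ S.toSubmodule, B w = 0) : ∀ w, B w = 0 := by
  have hNe : NeZero (Nat.card G : ℂ) := ⟨by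
    have : 0 < Nat.card G := Nat.card_pos
    exact_mod_cast this.ne'⟩
  obtain ⟨C, hC⟩ := exists_isCompl (kerSub ρ B hB)
  by_cases hC0 : C.toSubmodule = ⊥
  · have h1 : C = ⊥ := Subrepresentation.toSubmodule_injective hC0
    have h2 : kerSub ρ B hB = ⊤ := by
      have := hC.sup_eq_top
      rwa [h1, sup_bot_eq] at this
    intro w
    have h3 : w ∈ (kerSub ρ B hB) := by
      rw [h2]
      trivial
    exact h3
  · exfalso
    obtain ⟨S, hS1, hS2, hS3⟩ := exists_irr ρ C hC0
    have h1 : S ≤ kerSub ρ B hB := fun w hw => h S hS2 hS3 w hw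
    have h2 : S ≤ C := hS1
    have h3 : S ≤ ⊥ := by
      have := hC.disjoint
      exact this h1 h2
    apply hS2
    rw [Submodule.eq_bot_iff]
    intro x hx
    exact h3 hx

/-- the function at `x₀` and the stabiliser -/
lemma exists_fixed [Fintype X] [MulAction.IsPretransitive G X] (x₀ : X)
    (S : Subrepresentation (perm G X)) (hS : S.toSubmodule ≠ ⊥) :
    ∃ w : S.toSubmodule, w ≠ 0 ∧ ∀ g : G, g • x₀ = x₀ → S.toRepresentation g w = w := by
  obtain ⟨f, hf, hf0⟩ := Submodule.exists_mem_ne_zero_of_ne_bot hS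
  obtain ⟨x, hx⟩ := Function.ne_iff.1 hf0
  rw [Pi.zero_apply] at hx
  obtain ⟨g, rfl⟩ := MulAction.exists_smul_eq G x₀ x
  set f1 : X → ℂ := perm G X g⁻¹ f with hf1
  have h1 : f1 ∈ S.toSubmodule := S.apply_mem_toSubmodule g⁻¹ hf
  have h2 : f1 x₀ ≠ 0 := by
    rw [hf1, perm_apply, inv_inv]
    exact hx
  set H : Finset G := Finset.univ.filter fun h : G => h • x₀ = x₀ with hH
  set f2 : X → ℂ := ∑ h ∈ H, perm G X h f1 with hf2
  have h3 : f2 ∈ S.toSubmodule :=
    Submodule.sum_mem _ fun h _ => S.apply_mem_toSubmodule h h1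
  have h4 : f2 x₀ = H.card * f1 x₀ := by
    rw [hf2, Finset.sum_apply]
    have h5 : ∀ h ∈ H, perm G X h f1 x₀ = f1 x₀ := by
      intro h hh
      rw [hH, Finset.mem_filter] at hh
      rw [perm_apply]
      congr 1
      rw [inv_smul_eq_iff]
      exact hh.2.symm
    rw [Finset.sum_congr rfl h5, Finset.sum_const, nsmul_eq_mul]
  have h5 : f2 x₀ ≠ 0 := by
    rw [h4]
    refine mul_ne_zero ?_ h2
    have : 0 < H.card := Finset.card_pos.2 ⟨1, by rw [hH]; simp⟩
    exact_mod_cast this.ne'
  refine ⟨⟨f2, h3⟩, fun h => h5 ?_, fun k hk => ?_⟩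
  · have h6 : f2 = 0 := congrArg Subtype.val h
    rw [h6]
    rfl
  · apply Subtype.ext
    change perm G X k f2 = f2
    rw [hf2, map_sum]
    refine Finset.sum_bij' (fun h _ => k * h) (fun h _ => k⁻¹ * h) ?_ ?_ ?_ ?_ ?_
    · intro h hh
      rw [hH, Finset.mem_filter] at hh ⊢
      exact ⟨Finset.mem_univ _, by rw [mul_smul, hh.2, hk]⟩
    · intro h hh
      rw [hH, Finset.mem_filter] at hh ⊢
      exact ⟨Finset.mem_univ _, by rw [mul_smul, hh.2, inv_smul_eq_iff]; exact hk.symm⟩
    · intro h _
      exact inv_mul_cancel_left k h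
    · intro h _
      exact mul_inv_cancel_left k h
    · intro h _
      rw [map_mul, Module.End.mul_apply]

/-- **Duality.**  The values at the differences vanish if and only if the scalar products with
the characters of the odd irreducible representations with a fixed vector do. -/
theorem N_iff [Fintype X] [MulAction.IsPretransitive G X] (hc : ∀ g, c * g = g * c)
    (hc2 : c * c = 1) (x₀ : X) (τ : G → ℚ) :
    (∀ x y : X, N c τ x y = 0) ↔
      ∀ (W : Type) (_ : AddCommGroup W) (_ : Module ℂ W) (_ : FiniteDimensional ℂ W)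
        (ρ : Representation ℂ G W), OddFix ρ c x₀ → ∑ g, (τ g : ℂ) * ρ.character g = 0 := by
  constructor
  · intro h W _ _ _ ρ hρ
    obtain ⟨hirr, hodd, w, hw0, hw⟩ := hρ
    obtain ⟨wv, h1, h2⟩ := exists_wv x₀ ρ hw
    have h3 := Aop_wv hc2 ρ hodd τ h2 x₀
    have h4 : ∑ y, ((N c τ x₀ y : ℚ) : ℂ) • wv y = 0 :=
      Finset.sum_eq_zero fun y _ => by rw [h x₀ y, Rat.cast_zero, zero_smul]
    rw [h4, h1, smul_eq_zero_iff_right (two_ne_zero)] at h3
    rw [← Aop_eq_zero_iff ρ hirr]
    obtain ⟨t, ht⟩ := schur ρ hirr (Aop ρ τ) (Aop_comm ρ τ)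
    rw [ht] at h3
    rcases smul_eq_zero.1 h3 with h5 | h5
    · intro v
      rw [ht, h5, zero_smul]
    · exact absurd h5 hw0
  · intro h
    have hPc : ∀ (k : G) (f : X → ℂ), perm G X c (perm G X k f) = perm G X k (perm G X c f) := by
      intro k f
      rw [← Module.End.mul_apply, ← Module.End.mul_apply, ← map_mul, ← map_mul, hc]
    have hPcc : ∀ f : X → ℂ, perm G X c (perm G X c f) = f := by
      intro f
      rw [← Module.End.mul_apply, ← map_mul, hc2, map_one, Module.End.one_apply]
    set B : (X → ℂ) →ₗ[ℂ] (X → ℂ) := Aop (perm G X) τ - (perm G X c) ∘ₗ Aop (perm G X) τ with hB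
    have hBa : ∀ f, B f = Aop (perm G X) τ f - perm G X c (Aop (perm G X) τ f) := by
      intro f
      rw [hB]
      rfl
    have hBc : ∀ (k : G) (f : X → ℂ), B (perm G X k f) = perm G X k (B f) := by
      intro k f
      rw [hBa, hBa, Aop_comm, hPc, map_sub]
    have hB0 : ∀ f, B f = 0 := by
      refine eq_zero_of_irr (perm G X) B hBc fun S hS0 hS f hf => ?_
      -- `c` acts on `S` by a scalar
      obtain ⟨t, ht⟩ := schur S.toRepresentation hS (S.toRepresentation c) (by
        intro k w
        rw [← Module.End.mul_apply, ← Module.End.mul_apply, ← map_mul, ← map_mul, hc])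
      have ht' : ∀ f ∈ S.toSubmodule, perm G X c f = t • f := by
        intro f hf
        exact congrArg Subtype.val (ht ⟨f, hf⟩)
      obtain ⟨w, hw0, hw⟩ := exists_fixed x₀ S hS0
      have htt : t * t = 1 := by
        have h1 := hPcc (w : X → ℂ)
        rw [ht' _ w.2, map_smul, ht' _ w.2, smul_smul] at h1
        have h2 : (t * t - 1) • (w : X → ℂ) = 0 := by rw [sub_smul, h1, one_smul, sub_self]
        rcases smul_eq_zero.1 h2 with h3 | h3
        · exact sub_eq_zero.1 h3
        · exact absurd (Subtype.ext h3) hw0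
      have hAS : Aop (perm G X) τ f ∈ S.toSubmodule := by
        rw [← Aop_sub (perm G X) S τ ⟨f, hf⟩]
        exact (Aop S.toRepresentation τ ⟨f, hf⟩).2
      rcases mul_self_eq_one_iff.1 htt with h1 | h1
      · rw [hBa, ht' _ hAS, h1, one_smul, sub_self]
      · have h2 : OddFix S.toRepresentation c x₀ := by
          refine ⟨hS, fun w => ?_, w, hw0, hw⟩
          rw [ht, h1, neg_one_smul]
        have h3 := h _ _ _ inferInstance S.toRepresentation h2
        rw [← Aop_eq_zero_iff S.toRepresentation hS] at h3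
        have h4 := Aop_sub (perm G X) S τ ⟨f, hf⟩
        rw [h3 ⟨f, hf⟩] at h4
        have h5 : Aop (perm G X) τ f = 0 := h4.symm
        rw [hBa, h5, map_zero, sub_zero]
    intro x y
    have h1 : ∀ z : X, Aop (perm G X) τ (Pi.single x 1) z = ∑ g, (τ g : ℂ) * (cnt x z g : ℂ) := by
      intro z
      rw [Aop_apply, Finset.sum_apply]
      refine Finset.sum_congr rfl fun g _ => ?_
      rw [Pi.smul_apply, Finset.sum_apply, smul_eq_mul]
      congr 1
      have h2 : ∀ k : G, perm G X (k⁻¹ * g * k) (Pi.single x 1) z =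
          if (k⁻¹ * g * k) • x = z then (1 : ℂ) else 0 := by
        intro k
        rw [perm_apply, Pi.single_apply]
        have h3 : ((k⁻¹ * g * k)⁻¹ • z = x) ↔ ((k⁻¹ * g * k) • x = z) := by
          rw [inv_smul_eq_iff, eq_comm]
        simp only [h3]
      rw [Finset.sum_congr rfl fun k _ => h2 k, Finset.sum_boole]
      rfl
    have h2 := congrFun (hB0 (Pi.single x 1)) y
    rw [hBa, Pi.sub_apply, perm_apply, Pi.zero_apply, h1, h1] at h2
    have h3 : c⁻¹ • y = c • y := by
      rw [inv_smul_eq_iff, smul_smul_c hc2]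
    rw [h3, ← Finset.sum_sub_distrib] at h2
    have h4 : ((N c τ x y : ℚ) : ℂ) = 0 := by
      rw [← h2]
      unfold N D
      push_cast
      refine Finset.sum_congr rfl fun g _ => ?_
      ring
    exact_mod_cast h4

end Pool.Agent.V7H4.EC
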