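import Pool.Agent.V7H4.EC.B2

/-!
# Exact criterion: the tests for the two spans
-/

set_option autoImplicit false

open scoped Classical commutatorElement

namespace Pool.Agent.V7H4.EC

open Pool.Agent.Q11.CZ Pool.Agent.N770.CP Pool.Agent.V7H4.CT

variable {G : Type} [Group G] [Fintype G] {X : Type} [MulAction G X] {c : G}

/-- indicator of one element -/
noncomputable def del (a : G) : G → ℚ := fun g => if g = a then 1 else 0

lemma pr_add (τ τ' f : G → ℚ) : pr (τ + τ') f = pr τ f + pr τ' f := by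
  unfold pr
  rw [← Finset.sum_add_distrib]
  exact Finset.sum_congr rfl fun g _ => by rw [Pi.add_apply, add_mul]

lemma pr_sub (τ τ' f : G → ℚ) : pr (τ - τ') f = pr τ f - pr τ' f := by
  unfold pr
  rw [← Finset.sum_sub_distrib]
  exact Finset.sum_congr rfl fun g _ => by rw [Pi.sub_apply, sub_mul]

lemma pr_del (a : G) (f : G → ℚ) : pr (del a) f = f a := by
  unfold pr del
  simp

lemma sum_del (a : G) : ∑ g, del a g = 1 := by
  unfold del
  simp

/-- the value of a test function at a complex function -/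
noncomputable def prc (τ : G → ℚ) (F : G → ℂ) : ℂ := ∑ g, (τ g : ℂ) * F g

lemma prc_add (τ τ' : G → ℚ) (F : G → ℂ) : prc (τ + τ') F = prc τ F + prc τ' F := by
  unfold prc
  rw [← Finset.sum_add_distrib]
  exact Finset.sum_congr rfl fun g _ => by rw [Pi.add_apply, Rat.cast_add, add_mul]

lemma prc_sub (τ τ' : G → ℚ) (F : G → ℂ) : prc (τ - τ') F = prc τ F - prc τ' F := by
  unfold prc
  rw [← Finset.sum_sub_distrib]
  exact Finset.sum_congr rfl fun g _ => by rw [Pi.sub_apply, Rat.cast_sub, sub_mul]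

lemma prc_del (a : G) (F : G → ℂ) : prc (del a) F = F a := by
  unfold prc del
  rw [Finset.sum_eq_single a]
  · rw [if_pos rfl, Rat.cast_one, one_mul]
  · intro g _ hg
    rw [if_neg hg, Rat.cast_zero, zero_mul]
  · intro h
    exact absurd (Finset.mem_univ _) h

lemma prc_rev (τ : G → ℚ) (F : G → ℂ) : prc (rev τ) F = prc τ (fun g => F g⁻¹) := by
  unfold prc rev
  rw [← Equiv.sum_comp (Equiv.inv G)]
  refine Finset.sum_congr rfl fun g _ => ?_
  simp

lemma prc_rev_add (τ : G → ℚ) (F : G → ℂ) :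
    prc (τ + rev τ) F = prc τ (fun g => F g + F g⁻¹) := by
  rw [prc_add, prc_rev]
  unfold prc
  rw [← Finset.sum_add_distrib]
  exact Finset.sum_congr rfl fun g _ => by ring

/-- first test function -/
noncomputable def τ1 (j : ℕ) (g : G) : G → ℚ := del (g ^ j) - del g

/-- second test function -/
noncomputable def τ2 (j : ℕ) (g z : G) : G → ℚ :=
  (del ((g * z) ^ j) - del (g * z)) - (del (g ^ j) - del g)

lemma sum_τ1 (j : ℕ) (g : G) : ∑ a, τ1 j g a = 0 := by
  unfold τ1
  simp only [Pi.sub_apply]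
  rw [Finset.sum_sub_distrib, sum_del, sum_del, sub_self]

lemma sum_τ2 (j : ℕ) (g z : G) : ∑ a, τ2 j g z a = 0 := by
  unfold τ2
  simp only [Pi.sub_apply]
  rw [Finset.sum_sub_distrib, Finset.sum_sub_distrib, Finset.sum_sub_distrib, sum_del, sum_del,
    sum_del, sum_del]
  norm_num

lemma pr_τ1 (j : ℕ) (g : G) (f : G → ℚ) : pr (τ1 j g) f = f (g ^ j) - f g := by
  unfold τ1
  rw [pr_sub, pr_del, pr_del]

lemma pr_τ2 (j : ℕ) (g z : G) (f : G → ℚ) :
    pr (τ2 j g z) f = (f ((g * z) ^ j) - f (g * z)) - (f (g ^ j) - f g) := by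
  unfold τ2
  rw [pr_sub, pr_sub, pr_sub, pr_del, pr_del, pr_del, pr_del]

lemma prc_τ1 (j : ℕ) (g : G) (f : G → ℂ) : prc (τ1 j g) f = f (g ^ j) - f g := by
  unfold τ1
  rw [prc_sub, prc_del, prc_del]

lemma prc_τ2 (j : ℕ) (g z : G) (f : G → ℂ) :
    prc (τ2 j g z) f = (f ((g * z) ^ j) - f (g * z)) - (f (g ^ j) - f g) := by
  unfold τ2
  rw [prc_sub, prc_sub, prc_sub, prc_del, prc_del, prc_del, prc_del]

lemma zinv_iff (f : G → ℚ) :
    ZInv f ↔ ∀ j : ℕ, j.Coprime (Nat.card G) → ∀ g : G, pr (τ1 j g) f = 0 := by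
  constructor
  · intro h j hj g
    rw [pr_τ1, h _ _ (zpowers_pow hj g), sub_self]
  · intro h g g' hgg
    have hn : NeZero (Nat.card G) := ⟨Nat.card_pos.ne'⟩
    obtain ⟨u, hu⟩ := exists_unit hgg
    have h1 := h _ (ZMod.val_coe_unit_coprime u) g
    rw [pr_τ1, ← hu, sub_eq_zero] at h1
    exact h1.symm

lemma twist_iff (f : G → ℚ) :
    Twist f ↔ ∀ j : ℕ, j.Coprime (Nat.card G) → ∀ g : G, ∀ z ∈ commutator G,
      pr (τ2 j g z) f = 0 := by
  unfold Twist
  simp only [pr_τ2, sub_eq_zero]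

/-- The property of the odd irreducible representations of an arbitrary kind -/
def AllOdd (c : G) (x₀ : X) (P : ∀ (W : Type) [AddCommGroup W] [Module ℂ W],
    Representation ℂ G W → Prop) : Prop :=
  ∀ (W : Type) (_ : AddCommGroup W) (_ : Module ℂ W) (_ : FiniteDimensional ℂ W)
    (ρ : Representation ℂ G W), OddFix ρ c x₀ → P W ρ

section tests

variable [Fintype X] [MulAction.IsPretransitive G X] (hc : ∀ g, c * g = g * c)
  (hc2 : c * c = 1) (hfree : ∀ x : X, c • x ≠ x) (x₀ : X)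

include hc hc2 hfree

lemma a0_test {τ : G → ℚ} (h0 : ∑ g, τ g = 0) :
    (∀ Φ : Finset X, IsHalf c Φ → ∀ x : X, pr τ (a0 x Φ) = 0) ↔
      AllOdd c x₀ (fun _ _ _ ρ => prc τ ρ.character = 0) := by
  rw [a0_iff hc hc2 hfree h0, N_iff hc hc2 x₀]
  rfl

lemma T_test {τ : G → ℚ} (h0 : ∑ g, τ g = 0) :
    (∀ Φ : Finset X, IsHalf c Φ → pr τ (T Φ) = 0) ↔
      AllOdd c x₀ (fun _ _ _ ρ => prc τ (fun g => ρ.character g + ρ.character g⁻¹) = 0) := by
  rw [T_iff hc hc2 hfree h0]
  have h1 : (∀ x y : X, N c τ x y + N c τ y x = 0) ↔ ∀ x y : X, N c (τ + rev τ) x y = 0 := by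
    refine forall_congr' fun x => forall_congr' fun y => ?_
    rw [N_add, N_swap hc2 τ x y]
  rw [h1, N_iff hc hc2 x₀]
  unfold AllOdd
  refine forall_congr' fun W => forall_congr' fun _ => forall_congr' fun _ =>
    forall_congr' fun _ => forall_congr' fun ρ => forall_congr' fun _ => ?_
  show prc (τ + rev τ) ρ.character = 0 ↔ prc τ (fun g => ρ.character g + ρ.character g⁻¹) = 0
  rw [prc_rev_add]

theorem a0_zinv : (∀ Φ : Finset X, IsHalf c Φ → ∀ x : X, ZInv (a0 x Φ : G → ℚ)) ↔
    AllOdd c x₀ (fun _ _ _ ρ => ∀ j : ℕ, j.Coprime (Nat.card G) → ∀ g : G,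
      ρ.character (g ^ j) = ρ.character g) := by
  constructor
  · intro h W _ _ _ ρ hρ j hj g
    have h1 := (a0_test hc hc2 hfree x₀ (sum_τ1 j g)).1
      (fun Φ hΦ x => (zinv_iff _).1 (h Φ hΦ x) j hj g) W _ _ inferInstance ρ hρ
    have h2 : prc (τ1 j g) ρ.character = 0 := h1
    rw [prc_τ1, sub_eq_zero] at h2
    exact h2
  · intro h Φ hΦ x
    rw [zinv_iff]
    intro j hj g
    refine (a0_test hc hc2 hfree x₀ (sum_τ1 j g)).2 ?_ Φ hΦ x
    intro W _ _ _ ρ hρ
    show prc _ _ = 0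
    rw [prc_τ1, h W _ _ inferInstance ρ hρ j hj g, sub_self]

theorem T_zinv : (∀ Φ : Finset X, IsHalf c Φ → ZInv (T Φ : G → ℚ)) ↔
    AllOdd c x₀ (fun _ _ _ ρ => ∀ j : ℕ, j.Coprime (Nat.card G) → ∀ g : G,
      ρ.character (g ^ j) + ρ.character (g ^ j)⁻¹ = ρ.character g + ρ.character g⁻¹) := by
  constructor
  · intro h W _ _ _ ρ hρ j hj g
    have h1 := (T_test hc hc2 hfree x₀ (sum_τ1 j g)).1
      (fun Φ hΦ => (zinv_iff _).1 (h Φ hΦ) j hj g) W _ _ inferInstance ρ hρ
    have h2 : prc (τ1 j g) (fun g => ρ.character g + ρ.character g⁻¹) = 0 := h1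
    rw [prc_τ1, sub_eq_zero] at h2
    exact h2
  · intro h Φ hΦ
    rw [zinv_iff]
    intro j hj g
    refine (T_test hc hc2 hfree x₀ (sum_τ1 j g)).2 ?_ Φ hΦ
    intro W _ _ _ ρ hρ
    show prc _ _ = 0
    rw [prc_τ1]
    have := h W _ _ inferInstance ρ hρ j hj g
    rw [this, sub_self]

theorem a0_twist : (∀ Φ : Finset X, IsHalf c Φ → ∀ x : X, Twist (a0 x Φ : G → ℚ)) ↔
    AllOdd c x₀ (fun _ _ _ ρ => ∀ j : ℕ, j.Coprime (Nat.card G) → ∀ g : G, ∀ z ∈ commutator G,
      prc (τ2 j g z) ρ.character = 0) := by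
  constructor
  · intro h W _ _ _ ρ hρ j hj g z hz
    exact (a0_test hc hc2 hfree x₀ (sum_τ2 j g z)).1
      (fun Φ hΦ x => (twist_iff _).1 (h Φ hΦ x) j hj g z hz) W _ _ inferInstance ρ hρ
  · intro h Φ hΦ x
    rw [twist_iff]
    intro j hj g z hz
    refine (a0_test hc hc2 hfree x₀ (sum_τ2 j g z)).2 ?_ Φ hΦ x
    intro W _ _ _ ρ hρ
    exact h W _ _ inferInstance ρ hρ j hj g z hz

theorem T_twist : (∀ Φ : Finset X, IsHalf c Φ → Twist (T Φ : G → ℚ)) ↔
    AllOdd c x₀ (fun _ _ _ ρ => ∀ j : ℕ, j.Coprime (Nat.card G) → ∀ g : G, ∀ z ∈ commutator G,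
      prc (τ2 j g z) (fun g => ρ.character g + ρ.character g⁻¹) = 0) := by
  constructor
  · intro h W _ _ _ ρ hρ j hj g z hz
    exact (T_test hc hc2 hfree x₀ (sum_τ2 j g z)).1
      (fun Φ hΦ => (twist_iff _).1 (h Φ hΦ) j hj g z hz) W _ _ inferInstance ρ hρ
  · intro h Φ hΦ
    rw [twist_iff]
    intro j hj g z hz
    refine (T_test hc hc2 hfree x₀ (sum_τ2 j g z)).2 ?_ Φ hΦ
    intro W _ _ _ ρ hρ
    exact h W _ _ inferInstance ρ hρ j hj g z hz

end tests

section comm

/-- functions invariant under translation by commutators satisfy the second test -/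
lemma τ2_of_ab {F : G → ℂ} (hF : ∀ g : G, ∀ z ∈ commutator G, F (g * z) = F g) (j : ℕ) (g z : G)
    (hz : z ∈ commutator G) : prc (τ2 j g z) F = 0 := by
  obtain ⟨z', hz', h⟩ := pow_mul_mem g z hz j
  rw [prc_τ2, h, hF _ z' hz', hF g z hz, sub_self]

/-- For functions whose sums over the cosets of the commutator subgroup vanish the second test is
the first. -/
lemma τ2_iff {F : G → ℂ}
    (hF : ∀ g : G, ∑ z ∈ Finset.univ.filter (fun z : G => z ∈ commutator G), F (g * z) = 0) :
    (∀ j : ℕ, j.Coprime (Nat.card G) → ∀ g : G, ∀ z ∈ commutator G, prc (τ2 j g z) F = 0) ↔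
      ∀ j : ℕ, j.Coprime (Nat.card G) → ∀ g : G, F (g ^ j) = F g := by
  set C : Finset G := Finset.univ.filter (fun z : G => z ∈ commutator G) with hC
  constructor
  · intro h j hj g
    have h1 : ∑ z ∈ C, ((F ((g * z) ^ j) - F (g * z)) - (F (g ^ j) - F g)) = 0 := by
      refine Finset.sum_eq_zero fun z hz => ?_
      rw [hC, Finset.mem_filter] at hz
      rw [← prc_τ2]
      exact h j hj g z hz.2
    have h2 : ∑ z ∈ C, F ((g * z) ^ j) = 0 := by
      rw [← hF (g ^ j)]
      have hmem : ∀ z ∈ C, (g ^ j)⁻¹ * (g * z) ^ j ∈ C := by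
        intro z hz
        rw [hC, Finset.mem_filter] at hz ⊢
        obtain ⟨z', hz', h3⟩ := pow_mul_mem g z hz.2 j
        refine ⟨Finset.mem_univ _, ?_⟩
        rw [h3, inv_mul_cancel_left]
        exact hz'
      have hinj : Set.InjOn (fun z => (g ^ j)⁻¹ * (g * z) ^ j) (C : Set G) := by
        intro z _ z' _ h3
        have h4 : (g * z) ^ j = (g * z') ^ j := mul_left_cancel h3
        have h5 : g * z = g * z' := by
          have h6 := (powCoprime (G := G) hj.symm).injective
          exact h6 h4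
        exact mul_left_cancel h5
      refine Finset.sum_bij (fun z _ => (g ^ j)⁻¹ * (g * z) ^ j) hmem
        (fun a ha b hb hab => hinj ha hb hab) ?_ ?_
      · intro b hb
        have h3 := Finset.surj_on_of_inj_on_of_card_le (fun z (_ : z ∈ C) =>
          (g ^ j)⁻¹ * (g * z) ^ j) hmem (fun a b ha hb hab => hinj ha hb hab) le_rfl b hb
        obtain ⟨a, ha, hab⟩ := h3
        exact ⟨a, ha, hab.symm⟩
      · intro z _
        show F ((g * z) ^ j) = F (g ^ j * ((g ^ j)⁻¹ * (g * z) ^ j))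
        rw [mul_inv_cancel_left]
    rw [Finset.sum_sub_distrib, Finset.sum_sub_distrib, h2, hF g, sub_zero, zero_sub,
      Finset.sum_const, neg_eq_zero, nsmul_eq_mul] at h1
    rcases mul_eq_zero.1 h1 with h3 | h3
    · exfalso
      have h4 : 0 < C.card := Finset.card_pos.2 ⟨1, by rw [hC]; simp [Subgroup.one_mem]⟩
      have h5 : (C.card : ℂ) ≠ 0 := by exact_mod_cast h4.ne'
      exact h5 h3
    · exact sub_eq_zero.1 h3
  · intro h j hj g z _
    rw [prc_τ2, h j hj, h j hj]
    ring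

variable {W : Type} [AddCommGroup W] [Module ℂ W] (ρ : Representation ℂ G W)

omit [Fintype G] in
/-- if all operators are scalars the dimension is one -/
lemma finrank_one_of_scalar [FiniteDimensional ℂ W] (hρ : ρ.IsIrreducible)
    (h : ∀ g : G, ∃ t : ℂ, ∀ w, ρ g w = t • w) : Module.finrank ℂ W = 1 := by
  have h0 : Module.finrank ℂ W ≠ 0 := by
    have := finrank_ne ρ hρ
    exact_mod_cast this
  have h1 : ∃ w : W, w ≠ 0 := by
    by_contra h1
    push Not at h1
    have : Subsingleton W := ⟨fun a b => by rw [h1 a, h1 b]⟩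
    exact h0 (Module.finrank_zero_of_subsingleton)
  obtain ⟨w, hw⟩ := h1
  set S : Subrepresentation ρ := ⟨ℂ ∙ w, fun g v hv => by
    obtain ⟨t, ht⟩ := h g
    rw [ht]
    exact Submodule.smul_mem _ _ hv⟩ with hS
  rcases hρ.eq_bot_or_eq_top S with h2 | h2
  · exfalso
    apply hw
    have h3 : w ∈ S := Submodule.mem_span_singleton_self w
    rw [h2] at h3
    exact h3
  · have h3 : (ℂ ∙ w) = ⊤ := congrArg Subrepresentation.toSubmodule h2
    rw [finrank_eq_one_iff_of_nonzero w hw]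
    exact h3

/-- the sums of the character over the cosets of the commutator subgroup vanish in dimension
greater than one -/
lemma sum_comm_char [FiniteDimensional ℂ W] (hρ : ρ.IsIrreducible)
    (h1 : 1 < Module.finrank ℂ W) (g : G) :
    ∑ z ∈ Finset.univ.filter (fun z : G => z ∈ commutator G), ρ.character (g * z) = 0 := by
  set C : Finset G := Finset.univ.filter (fun z : G => z ∈ commutator G) with hC
  set B : W →ₗ[ℂ] W := ∑ z ∈ C, ρ z with hB
  have hBa : ∀ w, B w = ∑ z ∈ C, ρ z w := fun w => LinearMap.sum_apply _ _ _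
  have hcomm : ∀ (h : G) (w : W), B (ρ h w) = ρ h (B w) := by
    intro h w
    rw [hBa, hBa, map_sum]
    refine Finset.sum_bij (fun z _ => h⁻¹ * z * h) ?_ ?_ ?_ ?_
    · intro z hz
      rw [hC, Finset.mem_filter] at hz ⊢
      refine ⟨Finset.mem_univ _, ?_⟩
      have := (inferInstance : (commutator G).Normal).conj_mem z hz.2 h⁻¹
      rwa [inv_inv] at this
    · intro a _ b _ hab
      exact mul_left_cancel (mul_right_cancel hab)
    · intro b hb
      rw [hC, Finset.mem_filter] at hb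
      refine ⟨h * b * h⁻¹, ?_, by group⟩
      rw [hC, Finset.mem_filter]
      exact ⟨Finset.mem_univ _, (inferInstance : (commutator G).Normal).conj_mem b hb.2 h⟩
    · intro z _
      rw [← Module.End.mul_apply, ← Module.End.mul_apply, ← map_mul, ← map_mul]
      congr 2
      group
  obtain ⟨t, ht⟩ := schur ρ hρ B hcomm
  have ht0 : t = 0 := by
    by_contra ht0
    have h2 : ∀ z ∈ commutator G, ∀ w, ρ z w = w := by
      intro z hz w
      have h3 : ρ z (B w) = B w := by
        rw [hBa, map_sum]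
        refine Finset.sum_bij (fun a _ => z * a) ?_ ?_ ?_ ?_
        · intro a ha
          rw [hC, Finset.mem_filter] at ha ⊢
          exact ⟨Finset.mem_univ _, Subgroup.mul_mem _ hz ha.2⟩
        · intro a _ b _ hab
          exact mul_left_cancel hab
        · intro b hb
          rw [hC, Finset.mem_filter] at hb
          refine ⟨z⁻¹ * b, ?_, mul_inv_cancel_left z b⟩
          rw [hC, Finset.mem_filter]
          exact ⟨Finset.mem_univ _, Subgroup.mul_mem _ (Subgroup.inv_mem _ hz) hb.2⟩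
        · intro a _
          rw [map_mul, Module.End.mul_apply]
      rw [ht, map_smul] at h3
      have h4 : t • (ρ z w - w) = 0 := by rw [smul_sub, h3, sub_self]
      rcases smul_eq_zero.1 h4 with h5 | h5
      · exact absurd h5 ht0
      · exact sub_eq_zero.1 h5
    have h3 : Module.finrank ℂ W = 1 := by
      refine finrank_one_of_scalar ρ hρ fun g => schur ρ hρ (ρ g) fun h w => ?_
      obtain ⟨z, hz, hz'⟩ := conj_eq g h
      have h4 : g * h = h * (g * z) := by
        rw [← hz']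
        group
      rw [← Module.End.mul_apply, ← map_mul, h4, map_mul, Module.End.mul_apply, map_mul,
        Module.End.mul_apply, h2 z hz]
    omega
  have h2 : ∑ z ∈ C, ρ.character (g * z) = LinearMap.trace ℂ W (ρ g * B) := by
    rw [hB, Finset.mul_sum, map_sum]
    refine Finset.sum_congr rfl fun z _ => ?_
    rw [← map_mul]
    rfl
  have h3 : B = 0 := by
    ext w
    rw [ht, ht0, zero_smul]
    rfl
  rw [h2, h3, mul_zero, map_zero]

/-- the same for the sum of the character and its dual -/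
lemma sum_comm_char' [FiniteDimensional ℂ W] (hρ : ρ.IsIrreducible)
    (h1 : 1 < Module.finrank ℂ W) (g : G) :
    ∑ z ∈ Finset.univ.filter (fun z : G => z ∈ commutator G),
      (ρ.character (g * z) + ρ.character (g * z)⁻¹) = 0 := by
  rw [Finset.sum_add_distrib, sum_comm_char ρ hρ h1, zero_add]
  rw [← sum_comm_char ρ hρ h1 g⁻¹]
  refine Finset.sum_bij (fun z _ => z⁻¹) ?_ ?_ ?_ ?_
  · intro z hz
    rw [Finset.mem_filter] at hz ⊢
    exact ⟨Finset.mem_univ _, Subgroup.inv_mem _ hz.2⟩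
  · intro a _ b _ hab
    exact inv_injective hab
  · intro b hb
    rw [Finset.mem_filter] at hb
    exact ⟨b⁻¹, by rw [Finset.mem_filter]; exact ⟨Finset.mem_univ _, Subgroup.inv_mem _ hb.2⟩,
      inv_inv b⟩
  · intro z _
    rw [mul_inv_rev]
    exact Representation.char_mul_comm ρ g⁻¹ z⁻¹

omit [Fintype G] in
/-- a one-dimensional character is invariant under translation by commutators -/
lemma char_ab [FiniteDimensional ℂ W] (h1 : Module.finrank ℂ W = 1) (g z : G)
    (hz : z ∈ commutator G) : ρ.character (g * z) = ρ.character g := by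
  have hsc : ∀ f : W →ₗ[ℂ] W, ∃ t : ℂ, ∀ w, f w = t • w := by
    intro f
    obtain ⟨v, hv, hv'⟩ := finrank_eq_one_iff'.1 h1
    obtain ⟨t, ht⟩ := hv' (f v)
    refine ⟨t, fun w => ?_⟩
    obtain ⟨s, rfl⟩ := hv' w
    rw [map_smul, ← ht, smul_comm]
  have h2 : commutator G ≤ (ρ : G →* (W →ₗ[ℂ] W)).ker := by
    rw [commutator_def, Subgroup.commutator_le]
    intro a _ b _
    rw [MonoidHom.mem_ker]
    have h3 : ρ (a * b) = ρ (b * a) := by
      ext w
      rw [map_mul, map_mul, Module.End.mul_apply, Module.End.mul_apply]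
      obtain ⟨s, hs⟩ := hsc (ρ a)
      obtain ⟨t, ht⟩ := hsc (ρ b)
      rw [hs, ht, ht, hs, smul_comm]
    have h4 : ⁅a, b⁆ = a * b * (b * a)⁻¹ := by
      rw [commutatorElement_def]
      group
    rw [h4, map_mul, h3, ← map_mul, mul_inv_cancel, map_one]
  have h5 : ρ z = 1 := h2 hz
  unfold Representation.character
  rw [map_mul, h5, mul_one]

omit [Fintype G] in
lemma char_ab' [FiniteDimensional ℂ W] (h1 : Module.finrank ℂ W = 1) (g z : G)
    (hz : z ∈ commutator G) : ρ.character (g * z) + ρ.character (g * z)⁻¹ =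
      ρ.character g + ρ.character g⁻¹ := by
  rw [char_ab ρ h1 g z hz, mul_inv_rev, Representation.char_mul_comm,
    char_ab ρ h1 g⁻¹ z⁻¹ (Subgroup.inv_mem _ hz)]

end comm

end Pool.Agent.V7H4.EC
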