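import Pool.Agent.N181.Mod.LinA

/-!
# Exact criterion: rationality of the values of characters
-/

set_option autoImplicit false

open scoped Classical

namespace Pool.Agent.V7H4.EC

section galois

variable {n : ℕ} [NeZero n]

instance cycInst : IsCyclotomicExtension {n} ℚ (CyclotomicField n ℚ) :=
  CyclotomicField.isCyclotomicExtension n ℚ

/-- automorphisms raise the roots of unity to powers -/
lemma aut_pow (σ : CyclotomicField n ℚ ≃ₐ[ℚ] CyclotomicField n ℚ) :
    ∃ j : ℕ, j.Coprime n ∧ ∀ l : CyclotomicField n ℚ, l ^ n = 1 → σ l = l ^ j := by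
  have hζ := IsCyclotomicExtension.zeta_spec n ℚ (CyclotomicField n ℚ)
  refine ⟨((hζ.autToPow ℚ σ : (ZMod n)ˣ) : ZMod n).val, ZMod.val_coe_unit_coprime _, fun l hl => ?_⟩
  obtain ⟨i, -, rfl⟩ := hζ.eq_pow_of_pow_eq_one hl
  rw [map_pow, ← hζ.autToPow_spec ℚ σ, ← pow_mul, ← pow_mul, mul_comm]

lemma exists_aut {j : ℕ} (hj : j.Coprime n) :
    ∃ σ : CyclotomicField n ℚ ≃ₐ[ℚ] CyclotomicField n ℚ,
      ∀ l : CyclotomicField n ℚ, l ^ n = 1 → σ l = l ^ j := by
  have hζ := IsCyclotomicExtension.zeta_spec n ℚ (CyclotomicField n ℚ)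
  have hirr : Irreducible (Polynomial.cyclotomic n ℚ) :=
    Polynomial.cyclotomic.irreducible_rat (NeZero.pos n)
  refine ⟨(IsCyclotomicExtension.autEquivPow (CyclotomicField n ℚ) hirr).symm
    (ZMod.unitOfCoprime j hj), fun l hl => ?_⟩
  set σ := (IsCyclotomicExtension.autEquivPow (CyclotomicField n ℚ) hirr).symm
    (ZMod.unitOfCoprime j hj) with hσ
  have h1 : hζ.autToPow ℚ σ = ZMod.unitOfCoprime j hj := by
    have h2 := (IsCyclotomicExtension.autEquivPow (CyclotomicField n ℚ) hirr).apply_symm_apply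
      (ZMod.unitOfCoprime j hj)
    rw [← hσ] at h2
    exact h2
  obtain ⟨i, -, rfl⟩ := hζ.eq_pow_of_pow_eq_one hl
  rw [map_pow, ← hζ.autToPow_spec ℚ σ, h1, ZMod.coe_unitOfCoprime, ZMod.val_natCast,
    ← pow_eq_pow_mod j hζ.pow_eq_one, ← pow_mul, ← pow_mul, mul_comm]

lemma ι_spec (μ : ℂ) (hμ : μ ^ n = 1) (ι : CyclotomicField n ℚ →+* ℂ) :
    ∃ l : CyclotomicField n ℚ, ι l = μ ∧ l ^ n = 1 := by
  have hζ := IsCyclotomicExtension.zeta_spec n ℚ (CyclotomicField n ℚ)
  have h1 : IsPrimitiveRoot (ι (IsCyclotomicExtension.zeta n ℚ (CyclotomicField n ℚ))) n :=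
    hζ.map_of_injective ι.injective
  obtain ⟨i, -, rfl⟩ := h1.eq_pow_of_pow_eq_one hμ
  refine ⟨IsCyclotomicExtension.zeta n ℚ (CyclotomicField n ℚ) ^ i, map_pow _ _ _, ?_⟩
  rw [← pow_mul, mul_comm, pow_mul, hζ.pow_eq_one, one_pow]

/-- A sum of `n`-th roots of unity is rational if and only if the sums of the powers with
exponent prime to `n` are equal to it. -/
theorem sum_rational (s : Multiset ℂ) (hs : ∀ μ ∈ s, μ ^ n = 1) :
    (∃ q : ℚ, s.sum = (q : ℂ)) ↔ ∀ j : ℕ, j.Coprime n → (s.map (· ^ j)).sum = s.sum := by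
  obtain ⟨ι⟩ : Nonempty (CyclotomicField n ℚ →+* ℂ) := inferInstance
  have hl : ∀ μ : ℂ, ∃ l : CyclotomicField n ℚ, μ ^ n = 1 → ι l = μ ∧ l ^ n = 1 := by
    intro μ
    by_cases h : μ ^ n = 1
    · obtain ⟨l, h1, h2⟩ := ι_spec μ h ι
      exact ⟨l, fun _ => ⟨h1, h2⟩⟩
    · exact ⟨0, fun h' => absurd h' h⟩
  choose l hl using hl
  have h1 : ∀ j : ℕ, (s.map (· ^ j)).sum = ι ((s.map l).map (· ^ j)).sum := by
    intro j
    rw [map_multiset_sum, Multiset.map_map, Multiset.map_map]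
    congr 1
    refine Multiset.map_congr rfl fun μ hμ => ?_
    simp only [Function.comp]
    rw [map_pow, (hl μ (hs μ hμ)).1]
  have h1' : s.sum = ι (s.map l).sum := by
    have := h1 1
    simpa using this
  have h2 : ∀ (σ : CyclotomicField n ℚ ≃ₐ[ℚ] CyclotomicField n ℚ) (j : ℕ),
      (∀ l : CyclotomicField n ℚ, l ^ n = 1 → σ l = l ^ j) →
        σ (s.map l).sum = ((s.map l).map (· ^ j)).sum := by
    intro σ j hσ
    rw [map_multiset_sum]
    congr 1
    refine Multiset.map_congr rfl fun x hx => ?_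
    rw [Multiset.mem_map] at hx
    obtain ⟨μ, hμ, rfl⟩ := hx
    exact hσ _ (hl μ (hs μ hμ)).2
  constructor
  · rintro ⟨q, hq⟩ j hj
    obtain ⟨σ, hσ⟩ := exists_aut hj
    rw [h1, ← h2 σ j hσ, h1']
    congr 1
    have h3 : (s.map l).sum = algebraMap ℚ (CyclotomicField n ℚ) q := by
      apply ι.injective
      rw [← h1', hq]
      simp
    rw [h3, AlgEquiv.commutes]
  · intro h
    have hgal : IsGalois ℚ (CyclotomicField n ℚ) :=
      IsCyclotomicExtension.isGalois {n} ℚ (CyclotomicField n ℚ)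
    have hfd : FiniteDimensional ℚ (CyclotomicField n ℚ) :=
      IsCyclotomicExtension.finiteDimensional {n} ℚ (CyclotomicField n ℚ)
    have h3 : (s.map l).sum ∈ (⊥ : IntermediateField ℚ (CyclotomicField n ℚ)) := by
      rw [IsGalois.mem_bot_iff_fixed]
      intro σ
      obtain ⟨j, hj, hσ⟩ := aut_pow σ
      apply ι.injective
      rw [h2 σ j hσ, ← h1, h j hj, h1']
    rw [IntermediateField.mem_bot] at h3
    obtain ⟨q, hq⟩ := h3
    refine ⟨q, ?_⟩
    rw [h1', ← hq]
    simp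

end galois

variable {G : Type} [Group G] [Fintype G] {W : Type} [AddCommGroup W] [Module ℂ W]
  [FiniteDimensional ℂ W] (ρ : Representation ℂ G W)

/-- the eigenvalues with multiplicity -/
noncomputable def ev (g : G) : Multiset ℂ := (LinearMap.charpoly (ρ g)).roots

lemma ev_pow (g : G) {μ : ℂ} (hμ : μ ∈ ev ρ g) : μ ^ Nat.card G = 1 := by
  unfold ev at hμ
  have h1 : (LinearMap.charpoly (ρ g)).IsRoot μ := (Polynomial.mem_roots'.1 hμ).2
  have h2 : Module.End.HasEigenvalue (ρ g) μ := by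
    rw [Module.End.hasEigenvalue_iff_isRoot_charpoly]
    exact h1
  obtain ⟨v, hv⟩ := h2.exists_hasEigenvector
  have h3 := hv.pow_apply (Nat.card G)
  rw [← map_pow, pow_card_eq_one', map_one, Module.End.one_apply] at h3
  have h4 : (μ ^ Nat.card G - 1) • v = 0 := by rw [sub_smul, ← h3, one_smul, sub_self]
  rcases smul_eq_zero.1 h4 with h5 | h5
  · exact sub_eq_zero.1 h5
  · exact absurd h5 hv.2

lemma char_pow (g : G) (j : ℕ) : ρ.character (g ^ j) = ((ev ρ g).map (· ^ j)).sum := by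
  unfold ev Representation.character
  rw [map_pow]
  exact Pool.Agent.N181.Mod.trace_pow_eq (ρ g) j

lemma char_ev (g : G) : ρ.character g = (ev ρ g).sum := by
  have := char_pow ρ g 1
  simpa using this

/-- **Rationality of the character.** -/
theorem char_rational_iff :
    (∀ j : ℕ, j.Coprime (Nat.card G) → ∀ g : G, ρ.character (g ^ j) = ρ.character g) ↔
      ∀ g : G, ∃ q : ℚ, ρ.character g = (q : ℂ) := by
  have hn : NeZero (Nat.card G) := ⟨Nat.card_pos.ne'⟩
  have key := fun g : G => sum_rational (n := Nat.card G) (ev ρ g) (fun μ hμ => ev_pow ρ g hμ)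
  constructor
  · intro h g
    rw [char_ev, key]
    intro j hj
    rw [← char_pow, ← char_ev, h j hj]
  · intro h j hj g
    have h1 := h g
    rw [char_ev, key] at h1
    rw [char_pow, char_ev, h1 j hj]

/-- **Rationality of the sum of the character and its dual.** -/
theorem char_rational_iff' :
    (∀ j : ℕ, j.Coprime (Nat.card G) → ∀ g : G,
      ρ.character (g ^ j) + ρ.character (g ^ j)⁻¹ = ρ.character g + ρ.character g⁻¹) ↔
      ∀ g : G, ∃ q : ℚ, ρ.character g + ρ.character g⁻¹ = (q : ℂ) := by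
  have hn : NeZero (Nat.card G) := ⟨Nat.card_pos.ne'⟩
  have key := fun g : G => sum_rational (n := Nat.card G) (ev ρ g + ev ρ g⁻¹) (fun μ hμ => by
    rcases Multiset.mem_add.1 hμ with h | h
    · exact ev_pow ρ g h
    · exact ev_pow ρ g⁻¹ h)
  have h1 : ∀ (g : G) (j : ℕ), ((ev ρ g + ev ρ g⁻¹).map (· ^ j)).sum =
      ρ.character (g ^ j) + ρ.character (g ^ j)⁻¹ := by
    intro g j
    rw [Multiset.map_add, Multiset.sum_add, ← char_pow, ← char_pow, inv_pow]
  have h2 : ∀ g : G, (ev ρ g + ev ρ g⁻¹).sum = ρ.character g + ρ.character g⁻¹ := by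
    intro g
    rw [Multiset.sum_add, ← char_ev, ← char_ev]
  constructor
  · intro h g
    rw [← h2, key]
    intro j hj
    rw [h1, h2, h j hj]
  · intro h j hj g
    have h3 := h g
    rw [← h2, key] at h3
    rw [← h1, h3 j hj, h2]

end Pool.Agent.V7H4.EC
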