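import Pool.Agent.V7H4.EC.C
import Pool.Agent.V7H4.EC.D

/-!
# Exact criterion: all half-systems
-/

set_option autoImplicit false

open scoped Classical commutatorElement

namespace Pool.Agent.V7H4.EC

open Pool.Agent.Q11.CZ Pool.Agent.N770.CP Pool.Agent.V7H4.CT

variable {G : Type} [Group G] [Fintype G] {X : Type} [MulAction G X] {c : G}
variable [Fintype X] [MulAction.IsPretransitive G X] (hc : ∀ g, c * g = g * c)
  (hc2 : c * c = 1) (hfree : ∀ x : X, c • x ≠ x) (x₀ : X)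

include hc hc2 hfree

theorem a0_zinv_rat : (∀ Φ : Finset X, IsHalf c Φ → ∀ x : X, ZInv (a0 x Φ : G → ℚ)) ↔
    ∀ (W : Type) (_ : AddCommGroup W) (_ : Module ℂ W) (_ : FiniteDimensional ℂ W)
      (ρ : Representation ℂ G W), OddFix ρ c x₀ → ∀ g : G, ∃ q : ℚ, ρ.character g = (q : ℂ) := by
  rw [a0_zinv hc hc2 hfree x₀]
  constructor
  · intro h W _ _ _ ρ hρ
    exact (char_rational_iff ρ).1 (h W _ _ inferInstance ρ hρ)
  · intro h W _ _ _ ρ hρ
    exact (char_rational_iff ρ).2 (h W _ _ inferInstance ρ hρ)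

theorem T_zinv_rat : (∀ Φ : Finset X, IsHalf c Φ → ZInv (T Φ : G → ℚ)) ↔
    ∀ (W : Type) (_ : AddCommGroup W) (_ : Module ℂ W) (_ : FiniteDimensional ℂ W)
      (ρ : Representation ℂ G W), OddFix ρ c x₀ →
        ∀ g : G, ∃ q : ℚ, ρ.character g + ρ.character g⁻¹ = (q : ℂ) := by
  rw [T_zinv hc hc2 hfree x₀]
  constructor
  · intro h W _ _ _ ρ hρ
    exact (char_rational_iff' ρ).1 (h W _ _ inferInstance ρ hρ)
  · intro h W _ _ _ ρ hρ
    exact (char_rational_iff' ρ).2 (h W _ _ inferInstance ρ hρ)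

theorem a0_twist_rat : (∀ Φ : Finset X, IsHalf c Φ → ∀ x : X, Twist (a0 x Φ : G → ℚ)) ↔
    ∀ (W : Type) (_ : AddCommGroup W) (_ : Module ℂ W) (_ : FiniteDimensional ℂ W)
      (ρ : Representation ℂ G W), OddFix ρ c x₀ → 1 < Module.finrank ℂ W →
        ∀ g : G, ∃ q : ℚ, ρ.character g = (q : ℂ) := by
  rw [a0_twist hc hc2 hfree x₀]
  constructor
  · intro h W _ _ _ ρ hρ h1
    exact (char_rational_iff ρ).1 ((τ2_iff (sum_comm_char ρ hρ.1 h1)).1
      (h W _ _ inferInstance ρ hρ))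
  · intro h W _ _ _ ρ hρ
    by_cases h1 : 1 < Module.finrank ℂ W
    · exact (τ2_iff (sum_comm_char ρ hρ.1 h1)).2 ((char_rational_iff ρ).2
        (h W _ _ inferInstance ρ hρ h1))
    · intro j _ g z hz
      have h2 := finrank_ne ρ hρ.1
      have h3 : Module.finrank ℂ W ≠ 0 := by exact_mod_cast h2
      exact τ2_of_ab (fun g z hz => char_ab ρ (by omega) g z hz) j g z hz

theorem T_twist_rat : (∀ Φ : Finset X, IsHalf c Φ → Twist (T Φ : G → ℚ)) ↔
    ∀ (W : Type) (_ : AddCommGroup W) (_ : Module ℂ W) (_ : FiniteDimensional ℂ W)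
      (ρ : Representation ℂ G W), OddFix ρ c x₀ → 1 < Module.finrank ℂ W →
        ∀ g : G, ∃ q : ℚ, ρ.character g + ρ.character g⁻¹ = (q : ℂ) := by
  rw [T_twist hc hc2 hfree x₀]
  constructor
  · intro h W _ _ _ ρ hρ h1
    exact (char_rational_iff' ρ).1 ((τ2_iff (sum_comm_char' ρ hρ.1 h1)).1
      (h W _ _ inferInstance ρ hρ))
  · intro h W _ _ _ ρ hρ
    by_cases h1 : 1 < Module.finrank ℂ W
    · exact (τ2_iff (sum_comm_char' ρ hρ.1 h1)).2 ((char_rational_iff' ρ).2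
        (h W _ _ inferInstance ρ hρ h1))
    · intro j _ g z hz
      have h2 := finrank_ne ρ hρ.1
      have h3 : Module.finrank ℂ W ≠ 0 := by exact_mod_cast h2
      exact τ2_of_ab (F := fun g => ρ.character g + ρ.character g⁻¹)
        (fun g z hz => char_ab' ρ (by omega) g z hz) j g z hz

end Pool.Agent.V7H4.EC
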