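import Pool.Agent.V7H4.EC.E

/-!
# Exact criterion: the proportion of the half-systems
-/

set_option autoImplicit false

open scoped Classical commutatorElement

namespace Pool.Agent.V7H4.EC

open Pool.Agent.Q11.CZ Pool.Agent.N770.CP Pool.Agent.V7H4.CT

variable {G : Type} [Group G] [Fintype G] {X : Type} [MulAction G X] {c : G}

/-- the quadratic function -/
noncomputable def qf (c : G) (τ : G → ℚ) (Φ : Finset X) : ℚ := ∑ x ∈ Φ, ∑ y ∈ Φ, N c τ x y

lemma q_tog (hc : ∀ g, c * g = g * c) (hc2 : c * c = 1) (τ : G → ℚ) {Φ : Finset X}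
    (hΦ : IsHalf c Φ) {u : X} (hu : u ∈ Φ) :
    qf c τ (tog c Φ u) = qf c τ Φ - 2 * ∑ x ∈ Φ, N c τ x u - 2 * ∑ y ∈ Φ, N c τ u y
      + 4 * N c τ u u := by
  unfold qf
  have h4 : ∀ x, ∑ y ∈ tog c Φ u, N c τ x y = ∑ y ∈ Φ, N c τ x y - 2 * N c τ x u :=
    fun x => tog_sum hΦ hu (fun y => N c τ x y) (fun y => N_right hc2 τ x y)
  rw [tog_sum hΦ hu (fun x => ∑ y ∈ tog c Φ u, N c τ x y) (fun x => by
    rw [← Finset.sum_neg_distrib]
    exact Finset.sum_congr rfl fun y _ => N_left hc hc2 τ x y)]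
  simp only [h4]
  rw [Finset.sum_sub_distrib, ← Finset.mul_sum]
  ring

lemma q_tog_two [Fintype X] (hc : ∀ g, c * g = g * c) (hc2 : c * c = 1)
    (hfree : ∀ x : X, c • x ≠ x) (τ : G → ℚ) {Φ : Finset X}
    (hΦ : IsHalf c Φ) {u v : X} (hu : u ∈ Φ) (hv : v ∈ Φ) (huv : v ≠ u) :
    qf c τ Φ - qf c τ (tog c Φ u) - qf c τ (tog c Φ v) + qf c τ (tog c (tog c Φ u) v) =
      4 * (N c τ u v + N c τ v u) := by
  have h1 := q_tog hc hc2 τ hΦ hu
  have h2 := q_tog hc hc2 τ hΦ hv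
  have h3 := q_tog hc hc2 τ (tog_half hc2 hfree hΦ hu) (mem_tog hv huv)
  rw [tog_sum hΦ hu (fun x => N c τ x v) (fun x => N_left hc hc2 τ x v),
    tog_sum hΦ hu (fun y => N c τ v y) (fun y => N_right hc2 τ v y)] at h3
  rw [h3, h1, h2]
  ring

/-- toggling a pair -/
noncomputable def tg (c : G) (x : X) (Φ : Finset X) : Finset X := symmDiff Φ {x, c • x}

omit [Fintype G] in
lemma tg_eq [Fintype X] {Φ : Finset X} (hΦ : IsHalf c Φ) {x : X} (hx : x ∈ Φ) :
    tg c x Φ = tog c Φ x := by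
  have hcx : c • x ∉ Φ := fun h => ((hΦ x).1 h) hx
  ext z
  unfold tg tog
  simp only [Finset.mem_symmDiff, Finset.mem_insert, Finset.mem_erase, Finset.mem_singleton]
  constructor
  · rintro (⟨h1, h2⟩ | ⟨h1, h2⟩)
    · push Not at h2
      exact Or.inr ⟨h2.1, h1⟩
    · rcases h1 with h1 | h1
      · rw [h1] at h2
        exact absurd hx h2
      · exact Or.inl h1
  · rintro (h1 | ⟨h1, h2⟩)
    · right
      rw [h1]
      exact ⟨Or.inr rfl, hcx⟩
    · left
      refine ⟨h2, ?_⟩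
      rintro (h3 | h3)
      · exact h1 h3
      · rw [h3] at h2
        exact hcx h2

omit [Fintype G] in
lemma tg_c (hc2 : c * c = 1) [Fintype X] (x : X) (Φ : Finset X) : tg c (c • x) Φ = tg c x Φ := by
  unfold tg
  rw [smul_smul_c hc2, Finset.pair_comm]

omit [Fintype G] in
lemma tg_tg (x : X) (Φ : Finset X) : tg c x (tg c x Φ) = Φ := by
  unfold tg
  rw [symmDiff_symmDiff_cancel_right]

/-- **Dichotomy for the sums.** -/
theorem T_quarter [Fintype X] [MulAction.IsPretransitive G X] (hc : ∀ g, c * g = g * c)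
    (hc2 : c * c = 1) (hfree : ∀ x : X, c • x ≠ x) {τ : G → ℚ} (h0 : ∑ g, τ g = 0)
    {Φ₁ : Finset X} (hΦ₁ : IsHalf c Φ₁) (h1 : pr τ (T Φ₁) ≠ 0) :
    (halves c X).card ≤ 4 * ((halves c X).filter fun Φ => pr τ (T Φ) ≠ 0).card := by
  have hG : (Fintype.card G : ℚ) ≠ 0 := card_ne
  have hprq : ∀ Φ : Finset X, IsHalf c Φ → (pr τ (T Φ) ≠ 0 ↔ qf c τ Φ ≠ 0) := by
    intro Φ hΦ
    rw [pr_T hc hc2 h0 hΦ]
    unfold qf
    rw [Ne, div_eq_zero_iff]
    constructor
    · intro h h'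
      exact h (Or.inl h')
    · intro h h'
      rcases h' with h' | h'
      · exact h h'
      · exact mul_ne_zero two_ne_zero hG h'
  set B := (halves c X).filter fun Φ => pr τ (T Φ) ≠ 0 with hB
  have hBmem : ∀ Φ : Finset X, IsHalf c Φ → qf c τ Φ ≠ 0 → Φ ∈ B := by
    intro Φ hΦ h
    rw [hB, Finset.mem_filter, mem_halves]
    exact ⟨hΦ, (hprq Φ hΦ).2 h⟩
  by_cases hex : ∃ u v : X, v ≠ u ∧ v ≠ c • u ∧ N c τ u v + N c τ v u ≠ 0
  · obtain ⟨u, v, h2, h3, h4⟩ := hex
    -- each half-system is one of four translates of a bad one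
    have key : ∀ Φ : Finset X, IsHalf c Φ → ∃ Ψ ∈ B, Φ = Ψ ∨ Φ = tg c u Ψ ∨ Φ = tg c v Ψ ∨
        Φ = tg c u (tg c v Ψ) := by
      have main : ∀ (u v : X) (Φ : Finset X), IsHalf c Φ → u ∈ Φ → v ∈ Φ → v ≠ u →
          N c τ u v + N c τ v u ≠ 0 → ∃ Ψ ∈ B, Φ = Ψ ∨ Φ = tg c u Ψ ∨ Φ = tg c v Ψ ∨
            Φ = tg c u (tg c v Ψ) := by
        intro u v Φ hΦ hu hv huv hN
        have h5 := q_tog_two hc hc2 hfree τ hΦ hu hv huv
        have hΦu : IsHalf c (tog c Φ u) := tog_half hc2 hfree hΦ hu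
        have hΦv : IsHalf c (tog c Φ v) := tog_half hc2 hfree hΦ hv
        have hvu : v ∈ tog c Φ u := mem_tog hv huv
        have hΦuv : IsHalf c (tog c (tog c Φ u) v) := tog_half hc2 hfree hΦu hvu
        by_cases e1 : qf c τ Φ = 0
        · by_cases e2 : qf c τ (tog c Φ u) = 0
          · by_cases e3 : qf c τ (tog c Φ v) = 0
            · have e4 : qf c τ (tog c (tog c Φ u) v) ≠ 0 := by
                intro e4
                rw [e1, e2, e3, e4] at h5
                apply hN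
                linarith
              refine ⟨_, hBmem _ hΦuv e4, Or.inr (Or.inr (Or.inr ?_))⟩
              rw [← tg_eq hΦu hvu, ← tg_eq hΦ hu, tg_tg, tg_tg]
            · refine ⟨_, hBmem _ hΦv e3, Or.inr (Or.inr (Or.inl ?_))⟩
              rw [← tg_eq hΦ hv, tg_tg]
          · refine ⟨_, hBmem _ hΦu e2, Or.inr (Or.inl ?_)⟩
            rw [← tg_eq hΦ hu, tg_tg]
        · exact ⟨Φ, hBmem _ hΦ e1, Or.inl rfl⟩
      intro Φ hΦ
      have hcu : c • u ≠ v := fun h => h3 h.symm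
      rcases mem_or hΦ u with h5 | h5
      · rcases mem_or hΦ v with h6 | h6
        · exact main u v Φ hΦ h5 h6 h2 h4
        · have h7 := main u (c • v) Φ hΦ h5 h6 (fun h => hcu (by rw [← h, smul_smul_c hc2])) (by
            rw [N_right hc2, N_left hc hc2]
            intro h
            apply h4
            linarith)
          simp only [tg_c hc2] at h7
          exact h7
      · rcases mem_or hΦ v with h6 | h6
        · have h7 := main (c • u) v Φ hΦ h5 h6 h3 (by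
            rw [N_right hc2, N_left hc hc2]
            intro h
            apply h4
            linarith)
          simp only [tg_c hc2] at h7
          exact h7
        · have h7 := main (c • u) (c • v) Φ hΦ h5 h6
            (fun h => h2 ((MulAction.injective c) h)) (by
            rw [N_right hc2, N_left hc hc2, N_right hc2, N_left hc hc2]
            intro h
            apply h4
            linarith)
          simp only [tg_c hc2] at h7
          exact h7
    have hsub : halves c X ⊆ ((B ∪ B.image (tg c u)) ∪ B.image (tg c v)) ∪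
        B.image (fun Ψ => tg c u (tg c v Ψ)) := by
      intro Φ hΦ
      rw [mem_halves] at hΦ
      obtain ⟨Ψ, hΨ, h | h | h | h⟩ := key Φ hΦ
      · rw [h]
        exact Finset.mem_union_left _ (Finset.mem_union_left _ (Finset.mem_union_left _ hΨ))
      · rw [h]
        exact Finset.mem_union_left _ (Finset.mem_union_left _ (Finset.mem_union_right _
          (Finset.mem_image_of_mem _ hΨ)))
      · rw [h]
        exact Finset.mem_union_left _ (Finset.mem_union_right _ (Finset.mem_image_of_mem _ hΨ))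
      · rw [h]
        exact Finset.mem_union_right _ (Finset.mem_image_of_mem (fun Ψ => tg c u (tg c v Ψ)) hΨ)
    have h5 := Finset.card_le_card hsub
    have h6 := Finset.card_union_le ((B ∪ B.image (tg c u)) ∪ B.image (tg c v))
      (B.image (fun Ψ => tg c u (tg c v Ψ)))
    have h7 := Finset.card_union_le (B ∪ B.image (tg c u)) (B.image (tg c v))
    have h8 := Finset.card_union_le B (B.image (tg c u))
    have h9 : (B.image (tg c u)).card ≤ B.card := Finset.card_image_le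
    have h10 : (B.image (tg c v)).card ≤ B.card := Finset.card_image_le
    have h11 : (B.image (fun Ψ => tg c u (tg c v Ψ))).card ≤ B.card := Finset.card_image_le
    omega
  · push Not at hex
    -- the function is constant
    have hqf : ∀ Φ : Finset X, IsHalf c Φ → 2 * qf c τ Φ =
        ∑ x ∈ Φ, 2 * N c τ x x := by
      intro Φ hΦ
      have e1 : 2 * qf c τ Φ = ∑ x ∈ Φ, ∑ y ∈ Φ, (N c τ x y + N c τ y x) := by
        have : ∑ x ∈ Φ, ∑ y ∈ Φ, (N c τ x y + N c τ y x) =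
            ∑ x ∈ Φ, ∑ y ∈ Φ, N c τ x y + ∑ x ∈ Φ, ∑ y ∈ Φ, N c τ y x := by
          rw [← Finset.sum_add_distrib]
          exact Finset.sum_congr rfl fun x _ => Finset.sum_add_distrib
        rw [this, Finset.sum_comm (f := fun x y => N c τ y x)]
        unfold qf
        ring
      rw [e1]
      refine Finset.sum_congr rfl fun x hx => ?_
      rw [Finset.sum_eq_single x]
      · ring
      · intro y hy hyx
        refine hex x y hyx fun h8 => ?_
        rw [h8] at hy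
        exact (hΦ x).1 hy hx
      · exact fun h8 => absurd hx h8
    have hq1 : qf c τ Φ₁ ≠ 0 := (hprq Φ₁ hΦ₁).1 h1
    have hex0 : ∃ u ∈ Φ₁, N c τ u u ≠ 0 := by
      by_contra h
      push Not at h
      apply hq1
      have h2 := hqf Φ₁ hΦ₁
      have h3 : ∑ x ∈ Φ₁, 2 * N c τ x x = 0 :=
        Finset.sum_eq_zero fun x hx => by rw [h x hx, mul_zero]
      rw [h3] at h2
      linarith
    obtain ⟨u, hu, huN⟩ := hex0
    have hconst : ∀ x : X, N c τ x x = N c τ u u := by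
      intro x
      obtain ⟨k, rfl⟩ := MulAction.exists_smul_eq G u x
      exact N_smul hc τ k u u
    have hall : ∀ Φ : Finset X, IsHalf c Φ → qf c τ Φ ≠ 0 := by
      intro Φ hΦ h
      have h2 := hqf Φ hΦ
      simp only [hconst] at h2
      rw [Finset.sum_const, nsmul_eq_mul, h, mul_zero] at h2
      rcases mul_eq_zero.1 h2.symm with h3 | h3
      · have h4 : 0 < Φ.card := by
          rcases mem_or hΦ u with h5 | h5
          · exact Finset.card_pos.2 ⟨_, h5⟩
          · exact Finset.card_pos.2 ⟨_, h5⟩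
        exact absurd h3 (by exact_mod_cast h4.ne')
      · exact huN (by linarith)
    have hsub : halves c X ⊆ B := by
      intro Φ hΦ
      rw [mem_halves] at hΦ
      exact hBmem Φ hΦ (hall Φ hΦ)
    have := Finset.card_le_card hsub
    omega

/-- **Dichotomy for the class functions.** -/
theorem a0_half [Fintype X] [MulAction.IsPretransitive G X] (hc : ∀ g, c * g = g * c)
    (hc2 : c * c = 1) (hfree : ∀ x : X, c • x ≠ x) {τ : G → ℚ} (h0 : ∑ g, τ g = 0)
    {Φ₁ : Finset X} (hΦ₁ : IsHalf c Φ₁) {x₁ : X} (h1 : pr τ (a0 x₁ Φ₁) ≠ 0) (x : X) :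
    (halves c X).card ≤ 2 * ((halves c X).filter fun Φ => pr τ (a0 x Φ) ≠ 0).card := by
  have hG : (Fintype.card G : ℚ) ≠ 0 := card_ne
  have hprq : ∀ (x : X) (Φ : Finset X), IsHalf c Φ →
      (pr τ (a0 x Φ) ≠ 0 ↔ ∑ y ∈ Φ, N c τ x y ≠ 0) := by
    intro x Φ hΦ
    rw [pr_a0 hc hc2 h0 x hΦ]
    rw [Ne, div_eq_zero_iff]
    constructor
    · intro h h'
      exact h (Or.inl h')
    · intro h h'
      rcases h' with h' | h'
      · exact h h'
      · exact mul_ne_zero two_ne_zero hG h'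
  obtain ⟨y₁, hy₁, hN₁⟩ : ∃ y ∈ Φ₁, N c τ x₁ y ≠ 0 := by
    by_contra h
    push Not at h
    exact (hprq x₁ Φ₁ hΦ₁).1 h1 (Finset.sum_eq_zero h)
  obtain ⟨k, hk⟩ := MulAction.exists_smul_eq G x₁ x
  have hN : N c τ x (k • y₁) ≠ 0 := by
    rw [← hk, N_smul hc]
    exact hN₁
  set y := k • y₁ with hy
  set B := (halves c X).filter fun Φ => pr τ (a0 x Φ) ≠ 0 with hB
  have hBmem : ∀ Φ : Finset X, IsHalf c Φ → ∑ y ∈ Φ, N c τ x y ≠ 0 → Φ ∈ B := by
    intro Φ hΦ h
    rw [hB, Finset.mem_filter, mem_halves]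
    exact ⟨hΦ, (hprq x Φ hΦ).2 h⟩
  have key : ∀ Φ : Finset X, IsHalf c Φ → ∃ Ψ ∈ B, Φ = Ψ ∨ Φ = tg c y Ψ := by
    have main : ∀ (y : X) (Φ : Finset X), IsHalf c Φ → y ∈ Φ → N c τ x y ≠ 0 →
        ∃ Ψ ∈ B, Φ = Ψ ∨ Φ = tg c y Ψ := by
      intro y Φ hΦ hy hN
      have h5 := tog_sum hΦ hy (fun y => N c τ x y) (fun y => N_right hc2 τ x y)
      by_cases e1 : ∑ y ∈ Φ, N c τ x y = 0
      · have e2 : ∑ y ∈ tog c Φ y, N c τ x y ≠ 0 := by
          intro e2
          rw [e1, e2] at h5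
          apply hN
          linarith
        refine ⟨_, hBmem _ (tog_half hc2 hfree hΦ hy) e2, Or.inr ?_⟩
        rw [← tg_eq hΦ hy, tg_tg]
      · exact ⟨Φ, hBmem _ hΦ e1, Or.inl rfl⟩
    intro Φ hΦ
    rcases mem_or hΦ y with h5 | h5
    · exact main y Φ hΦ h5 hN
    · have h7 := main (c • y) Φ hΦ h5 (by
        rw [N_right hc2]
        exact neg_ne_zero.2 hN)
      simp only [tg_c hc2] at h7
      exact h7
  have hsub : halves c X ⊆ B ∪ B.image (tg c y) := by
    intro Φ hΦ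
    rw [mem_halves] at hΦ
    obtain ⟨Ψ, hΨ, h | h⟩ := key Φ hΦ
    · rw [h]
      exact Finset.mem_union_left _ hΨ
    · rw [h]
      exact Finset.mem_union_right _ (Finset.mem_image_of_mem _ hΨ)
  have h5 := Finset.card_le_card hsub
  have h8 := Finset.card_union_le B (B.image (tg c y))
  have h9 : (B.image (tg c y)).card ≤ B.card := Finset.card_image_le
  omega

section cons

variable [Fintype X] [MulAction.IsPretransitive G X] (hc : ∀ g, c * g = g * c)
  (hc2 : c * c = 1) (hfree : ∀ x : X, c • x ≠ x)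

include hc hc2 hfree

theorem T_zinv_quarter {Φ₁ : Finset X} (hΦ₁ : IsHalf c Φ₁) (h1 : ¬ ZInv (T Φ₁ : G → ℚ)) :
    (halves c X).card ≤ 4 * ((halves c X).filter fun Φ => ¬ ZInv (T Φ : G → ℚ)).card := by
  rw [zinv_iff] at h1
  push Not at h1
  obtain ⟨j, hj, g, h2⟩ := h1
  refine (T_quarter hc hc2 hfree (sum_τ1 j g) hΦ₁ h2).trans (Nat.mul_le_mul_left 4
    (Finset.card_le_card fun Φ hΦ => ?_))
  rw [Finset.mem_filter] at hΦ ⊢
  exact ⟨hΦ.1, fun h => hΦ.2 ((zinv_iff _).1 h j hj g)⟩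

theorem T_twist_quarter {Φ₁ : Finset X} (hΦ₁ : IsHalf c Φ₁) (h1 : ¬ Twist (T Φ₁ : G → ℚ)) :
    (halves c X).card ≤ 4 * ((halves c X).filter fun Φ => ¬ Twist (T Φ : G → ℚ)).card := by
  rw [twist_iff] at h1
  push Not at h1
  obtain ⟨j, hj, g, z, hz, h2⟩ := h1
  refine (T_quarter hc hc2 hfree (sum_τ2 j g z) hΦ₁ h2).trans (Nat.mul_le_mul_left 4
    (Finset.card_le_card fun Φ hΦ => ?_))
  rw [Finset.mem_filter] at hΦ ⊢
  exact ⟨hΦ.1, fun h => hΦ.2 ((twist_iff _).1 h j hj g z hz)⟩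

theorem a0_zinv_half {Φ₁ : Finset X} (hΦ₁ : IsHalf c Φ₁) {x₁ : X}
    (h1 : ¬ ZInv (a0 x₁ Φ₁ : G → ℚ)) (x : X) :
    (halves c X).card ≤ 2 * ((halves c X).filter fun Φ => ¬ ZInv (a0 x Φ : G → ℚ)).card := by
  rw [zinv_iff] at h1
  push Not at h1
  obtain ⟨j, hj, g, h2⟩ := h1
  refine (a0_half hc hc2 hfree (sum_τ1 j g) hΦ₁ h2 x).trans (Nat.mul_le_mul_left 2
    (Finset.card_le_card fun Φ hΦ => ?_))
  rw [Finset.mem_filter] at hΦ ⊢
  exact ⟨hΦ.1, fun h => hΦ.2 ((zinv_iff _).1 h j hj g)⟩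

theorem a0_twist_half {Φ₁ : Finset X} (hΦ₁ : IsHalf c Φ₁) {x₁ : X}
    (h1 : ¬ Twist (a0 x₁ Φ₁ : G → ℚ)) (x : X) :
    (halves c X).card ≤ 2 * ((halves c X).filter fun Φ => ¬ Twist (a0 x Φ : G → ℚ)).card := by
  rw [twist_iff] at h1
  push Not at h1
  obtain ⟨j, hj, g, z, hz, h2⟩ := h1
  refine (a0_half hc hc2 hfree (sum_τ2 j g z) hΦ₁ h2 x).trans (Nat.mul_le_mul_left 2
    (Finset.card_le_card fun Φ hΦ => ?_))
  rw [Finset.mem_filter] at hΦ ⊢
  exact ⟨hΦ.1, fun h => hΦ.2 ((twist_iff _).1 h j hj g z hz)⟩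

end cons

end Pool.Agent.V7H4.EC
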