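import Pool.Agent.V7H4.EC.H

/-!
# Exact criterion: the individual functions
-/

set_option autoImplicit false

open scoped Classical commutatorElement

namespace Pool.Agent.V7H4.EC

open Pool.Agent.Q11.CZ Pool.Agent.N770.CP Pool.Agent.V7H4.CT

variable {G : Type} [Group G] [Fintype G] {c : G}

section weighted

variable {W : Type} [AddCommGroup W] [Module ℂ W] [FiniteDimensional ℂ W]
  (ρ : Representation ℂ G W)

/-- Rationality of the scalar products with a character. -/
theorem weighted_rational (f : G → ℚ) :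
    (∃ q : ℚ, ∑ g, (f g : ℂ) * ρ.character g = (q : ℂ)) ↔
      ∀ j : ℕ, j.Coprime (Nat.card G) →
        ∑ g, (f g : ℂ) * ρ.character (g ^ j) = ∑ g, (f g : ℂ) * ρ.character g := by
  have hn : NeZero (Nat.card G) := ⟨Nat.card_pos.ne'⟩
  set n := Nat.card G with hndef
  obtain ⟨ι⟩ : Nonempty (CyclotomicField n ℚ →+* ℂ) := inferInstance
  have hl : ∀ μ : ℂ, ∃ l : CyclotomicField n ℚ, μ ^ n = 1 → ι l = μ ∧ l ^ n = 1 := by
    intro μ
    by_cases h : μ ^ n = 1
    · obtain ⟨l, h1, h2⟩ := ι_spec μ h ι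
      exact ⟨l, fun _ => ⟨h1, h2⟩⟩
    · exact ⟨0, fun h' => absurd h' h⟩
  choose l hl using hl
  have hev : ∀ g : G, ∀ μ ∈ ev ρ g, μ ^ n = 1 := fun g μ hμ => ev_pow ρ g hμ
  -- the values in the cyclotomic field
  set F : G → CyclotomicField n ℚ := fun g => ((ev ρ g).map l).sum with hF
  have hF1 : ∀ g, ι (F g) = ρ.character g := by
    intro g
    simp only [hF]
    rw [map_multiset_sum, Multiset.map_map, char_ev]
    congr 1
    conv_rhs => rw [← Multiset.map_id (ev ρ g)]
    refine Multiset.map_congr rfl fun μ hμ => ?_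
    exact (hl μ (hev g μ hμ)).1
  have hF2 : ∀ (σ : CyclotomicField n ℚ ≃ₐ[ℚ] CyclotomicField n ℚ) (j : ℕ),
      (∀ l : CyclotomicField n ℚ, l ^ n = 1 → σ l = l ^ j) →
        ∀ g, ι (σ (F g)) = ρ.character (g ^ j) := by
    intro σ j hσ g
    simp only [hF]
    rw [map_multiset_sum, map_multiset_sum, Multiset.map_map, Multiset.map_map, char_pow]
    congr 1
    refine Multiset.map_congr rfl fun μ hμ => ?_
    simp only [Function.comp]
    rw [hσ _ (hl μ (hev g μ hμ)).2, map_pow, (hl μ (hev g μ hμ)).1]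
  set S : CyclotomicField n ℚ := ∑ g, algebraMap ℚ (CyclotomicField n ℚ) (f g) * F g with hS
  have hι : ∀ q : ℚ, ι (algebraMap ℚ (CyclotomicField n ℚ) q) = (q : ℂ) := by
    intro q
    simp
  have hS1 : ι S = ∑ g, (f g : ℂ) * ρ.character g := by
    rw [hS, map_sum]
    refine Finset.sum_congr rfl fun g _ => ?_
    rw [map_mul, hι, hF1]
  have hS2 : ∀ (σ : CyclotomicField n ℚ ≃ₐ[ℚ] CyclotomicField n ℚ) (j : ℕ),
      (∀ l : CyclotomicField n ℚ, l ^ n = 1 → σ l = l ^ j) →
        ι (σ S) = ∑ g, (f g : ℂ) * ρ.character (g ^ j) := by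
    intro σ j hσ
    rw [hS, map_sum, map_sum]
    refine Finset.sum_congr rfl fun g _ => ?_
    rw [map_mul, map_mul, AlgEquiv.commutes, hι, hF2 σ j hσ]
  constructor
  · rintro ⟨q, hq⟩ j hj
    obtain ⟨σ, hσ⟩ := exists_aut hj
    rw [← hS2 σ j hσ, ← hS1]
    congr 1
    have h3 : S = algebraMap ℚ (CyclotomicField n ℚ) q := by
      apply ι.injective
      rw [hS1, hq, hι]
    rw [h3, AlgEquiv.commutes]
  · intro h
    have hgal : IsGalois ℚ (CyclotomicField n ℚ) :=
      IsCyclotomicExtension.isGalois {n} ℚ (CyclotomicField n ℚ)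
    have hfd : FiniteDimensional ℚ (CyclotomicField n ℚ) :=
      IsCyclotomicExtension.finiteDimensional {n} ℚ (CyclotomicField n ℚ)
    have h3 : S ∈ (⊥ : IntermediateField ℚ (CyclotomicField n ℚ)) := by
      rw [IsGalois.mem_bot_iff_fixed]
      intro σ
      obtain ⟨j, hj, hσ⟩ := aut_pow σ
      apply ι.injective
      rw [hS2 σ j hσ, h j hj, hS1]
    rw [IntermediateField.mem_bot] at h3
    obtain ⟨q, hq⟩ := h3
    refine ⟨q, ?_⟩
    rw [← hS1, ← hq, hι]

end weighted

/-- an irreducible representation with `c = -1` -/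
def Odd' (c : G) {W : Type} [AddCommGroup W] [Module ℂ W] (ρ : Representation ℂ G W) : Prop :=
  ρ.IsIrreducible ∧ ∀ w, ρ c w = -w

/-- **Completeness.** -/
theorem eq_zero_of_odd (hc : ∀ g, c * g = g * c) (hc2 : c * c = 1) {τ : G → ℚ}
    (hcl : IsClass τ) (hodd : ∀ g, τ (c * g) = -τ g)
    (h : ∀ (W : Type) (_ : AddCommGroup W) (_ : Module ℂ W) (_ : FiniteDimensional ℂ W)
      (ρ : Representation ℂ G W), Odd' c ρ → ∑ g, (τ g : ℂ) * ρ.character g = 0) (u : G) :
    τ u = 0 := by
  have h1 : ∀ x y : G, N c τ x y = 0 := by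
    rw [N_iff hc hc2 (1 : G)]
    intro W _ _ _ ρ hρ
    exact h W _ _ inferInstance ρ ⟨hρ.1, hρ.2.1⟩
  have h2 : ∀ y : G, ∑ g, τ g * (cnt (1 : G) y g : ℚ) = Fintype.card G * τ y := by
    intro y
    have h3 : ∀ g : G, τ g * (cnt (1 : G) y g : ℚ) =
        ∑ k : G, if g = k * y * k⁻¹ then τ g else 0 := by
      intro g
      unfold cnt
      rw [← Finset.sum_boole, Finset.mul_sum]
      refine Finset.sum_congr rfl fun k _ => ?_
      have h4 : (k⁻¹ * g * k) • (1 : G) = y ↔ g = k * y * k⁻¹ := by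
        rw [smul_eq_mul, mul_one]
        constructor
        · intro h
          rw [← h]
          group
        · intro h
          rw [h]
          group
      simp only [h4, mul_ite, mul_one, mul_zero]
    rw [Finset.sum_congr rfl fun g _ => h3 g, Finset.sum_comm]
    have h5 : ∀ k : G, (∑ g : G, if g = k * y * k⁻¹ then τ g else 0) = τ y := by
      intro k
      rw [Finset.sum_ite_eq' Finset.univ (k * y * k⁻¹) τ, if_pos (Finset.mem_univ _)]
      have := hcl y k⁻¹
      rwa [inv_inv] at this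
    rw [Finset.sum_congr rfl fun k _ => h5 k, Finset.sum_const, nsmul_eq_mul, Finset.card_univ]
  have h3 := h1 1 u
  unfold N D at h3
  push_cast at h3
  have h4 : ∑ g, τ g * ((cnt (1 : G) u g : ℚ) - (cnt (1 : G) (c • u) g : ℚ)) =
      Fintype.card G * τ u - Fintype.card G * τ (c * u) := by
    rw [← h2, ← h2, ← Finset.sum_sub_distrib]
    refine Finset.sum_congr rfl fun g _ => ?_
    rw [smul_eq_mul]
    ring
  rw [h4, hodd] at h3
  have hG : (Fintype.card G : ℚ) ≠ 0 := card_ne
  have h5 : (2 * Fintype.card G : ℚ) * τ u = 0 := by linarith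
  rcases mul_eq_zero.1 h5 with h6 | h6
  · exact absurd h6 (mul_ne_zero two_ne_zero hG)
  · exact h6

/-- inverse exponents -/
lemma exists_inv_exp {j : ℕ} (hj : j.Coprime (Nat.card G)) :
    ∃ i : ℕ, i.Coprime (Nat.card G) ∧ ∀ g : G, (g ^ j) ^ i = g := by
  have hn : NeZero (Nat.card G) := ⟨Nat.card_pos.ne'⟩
  set u := ZMod.unitOfCoprime j hj with hu
  refine ⟨((u⁻¹ : (ZMod (Nat.card G))ˣ) : ZMod (Nat.card G)).val, ZMod.val_coe_unit_coprime _,
    fun g => ?_⟩
  rw [← pow_mul]
  have h1 : j * ((u⁻¹ : (ZMod (Nat.card G))ˣ) : ZMod (Nat.card G)).val ≡ 1 [MOD Nat.card G] := by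
    rw [← ZMod.natCast_eq_natCast_iff]
    push_cast
    rw [ZMod.natCast_val, ZMod.cast_id]
    have h2 : ((j : ZMod (Nat.card G))) = (u : ZMod (Nat.card G)) := rfl
    rw [h2, Units.mul_inv]
  have h2 : j * ((u⁻¹ : (ZMod (Nat.card G))ˣ) : ZMod (Nat.card G)).val ≡ 1 [MOD orderOf g] :=
    h1.of_dvd (orderOf_dvd_natCard g)
  have h3 := pow_eq_pow_iff_modEq.2 h2
  rw [h3, pow_one]

lemma pow_bij {j : ℕ} (hj : j.Coprime (Nat.card G)) :
    Function.Bijective (fun g : G => g ^ j) := (powCoprime (G := G) hj.symm).bijective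

/-- the differences of the power functions -/
lemma sum_pow {j i : ℕ} (hi : i.Coprime (Nat.card G))
    (hji : ∀ g : G, (g ^ i) ^ j = g) (f : G → ℚ) (F : G → ℂ) :
    ∑ g, (f (g ^ i) : ℂ) * F g = ∑ g, (f g : ℂ) * F (g ^ j) := by
  refine Fintype.sum_bijective (fun g : G => g ^ i) (pow_bij hi) _ _ fun g => ?_
  rw [hji]

section main

variable (hc : ∀ g, c * g = g * c) (hc2 : c * c = 1) (hc1 : c ≠ 1) {f : G → ℚ} {s : ℚ}
  (hcl : IsClass f) (hs : ∀ g, f g + f (c * g) = s)

include hcl in
omit [Fintype G] in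
lemma pow_class (j : ℕ) : IsClass (fun g => f (g ^ j) - f g) := by
  intro g h
  have h1 : (h⁻¹ * g * h) ^ j = h⁻¹ * g ^ j * h := by
    have := conj_pow (a := h⁻¹) (b := g) (i := j)
    rwa [inv_inv] at this
  show f ((h⁻¹ * g * h) ^ j) - f (h⁻¹ * g * h) = f (g ^ j) - f g
  rw [h1, hcl, hcl]

include hc hc2 hc1 hs in
lemma pow_odd {j : ℕ} (hj : j.Coprime (Nat.card G)) (g : G) :
    f ((c * g) ^ j) - f (c * g) = -(f (g ^ j) - f g) := by
  rw [c_pow hc hc2 hc1 hj]
  linarith [hs g, hs (g ^ j)]

include hc hc2 hc1 hcl hs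

/-- **Individual criterion for the first span.** -/
theorem zinv_iff_rat : ZInv f ↔
    ∀ (W : Type) (_ : AddCommGroup W) (_ : Module ℂ W) (_ : FiniteDimensional ℂ W)
      (ρ : Representation ℂ G W), Odd' c ρ → ∃ q : ℚ, ∑ g, (f g : ℂ) * ρ.character g = (q : ℂ) := by
  constructor
  · intro hz W _ _ _ ρ _
    rw [weighted_rational]
    intro j hj
    obtain ⟨i, hi, hji⟩ := exists_inv_exp hj
    have h1 : ∀ g : G, (g ^ i) ^ j = g := by
      intro g
      rw [← pow_mul, mul_comm, pow_mul, hji]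
    rw [← sum_pow hi h1]
    refine Finset.sum_congr rfl fun g _ => ?_
    rw [hz _ _ (zpowers_pow hi g)]
  · intro h
    have key : ∀ j : ℕ, j.Coprime (Nat.card G) → ∀ g : G, f (g ^ j) - f g = 0 := by
      intro j hj
      refine eq_zero_of_odd hc hc2 (τ := fun g => f (g ^ j) - f g) (pow_class hcl j)
        (fun g => pow_odd hc hc2 hc1 hs hj g) ?_
      intro W _ _ _ ρ hρ
      have h1 := (weighted_rational ρ f).1 (h W _ _ inferInstance ρ hρ)
      obtain ⟨i, hi, hji⟩ := exists_inv_exp hj
      have h2 := h1 i hi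
      rw [← sum_pow hj hji] at h2
      have h3 : ∑ g, (((fun g => f (g ^ j) - f g) g : ℚ) : ℂ) * ρ.character g =
          ∑ g, (f (g ^ j) : ℂ) * ρ.character g - ∑ g, (f g : ℂ) * ρ.character g := by
        rw [← Finset.sum_sub_distrib]
        refine Finset.sum_congr rfl fun g _ => ?_
        push_cast
        ring
      rw [h3, h2, sub_self]
    intro g g' hgg
    have hn : NeZero (Nat.card G) := ⟨Nat.card_pos.ne'⟩
    obtain ⟨u, hu⟩ := exists_unit hgg
    have h1 := key _ (ZMod.val_coe_unit_coprime u) g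
    rw [← hu, sub_eq_zero] at h1
    exact h1.symm

/-- **Individual criterion for the sum of the two spans.** -/
theorem twist_iff_rat : Twist f ↔
    ∀ (W : Type) (_ : AddCommGroup W) (_ : Module ℂ W) (_ : FiniteDimensional ℂ W)
      (ρ : Representation ℂ G W), Odd' c ρ → 1 < Module.finrank ℂ W →
        ∃ q : ℚ, ∑ g, (f g : ℂ) * ρ.character g = (q : ℂ) := by
  set C : Finset G := Finset.univ.filter (fun z : G => z ∈ commutator G) with hC
  have hCpos : (C.card : ℚ) ≠ 0 := by
    have : 0 < C.card := Finset.card_pos.2 ⟨1, by rw [hC]; simp [Subgroup.one_mem]⟩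
    exact_mod_cast this.ne'
  have hshift : ∀ (τ : G → ℚ) (F : G → ℂ) (z : G),
      ∑ g, (τ (g * z) : ℂ) * F g = ∑ g, (τ g : ℂ) * F (g * z⁻¹) := by
    intro τ F z
    refine Fintype.sum_equiv (Equiv.mulRight z) _ _ fun g => ?_
    simp
  have hinvC : ∀ F : G → ℂ, ∑ z ∈ C, F z⁻¹ = ∑ z ∈ C, F z := by
    intro F
    refine Finset.sum_bij (fun z _ => z⁻¹) ?_ ?_ ?_ ?_
    · intro z hz
      rw [hC, Finset.mem_filter] at hz ⊢
      exact ⟨Finset.mem_univ _, Subgroup.inv_mem _ hz.2⟩
    · intro a _ b _ hab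
      exact inv_injective hab
    · intro b hb
      rw [hC, Finset.mem_filter] at hb
      exact ⟨b⁻¹, by rw [hC, Finset.mem_filter]; exact ⟨Finset.mem_univ _,
        Subgroup.inv_mem _ hb.2⟩, inv_inv b⟩
    · intro z _
      rfl
  have hdouble : ∀ (τ : G → ℚ) (W : Type) (_ : AddCommGroup W) (_ : Module ℂ W)
      (_ : FiniteDimensional ℂ W) (ρ : Representation ℂ G W), ρ.IsIrreducible →
        1 < Module.finrank ℂ W → ∑ z ∈ C, ∑ g, (τ (g * z) : ℂ) * ρ.character g = 0 := by
    intro τ W _ _ _ ρ hρ hW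
    rw [Finset.sum_congr rfl fun z _ => hshift τ ρ.character z, Finset.sum_comm]
    refine Finset.sum_eq_zero fun g _ => ?_
    rw [← Finset.mul_sum, hinvC (fun z => ρ.character (g * z)), sum_comm_char ρ hρ hW g, mul_zero]
  constructor
  · intro ht W _ _ _ ρ hρ hW
    rw [weighted_rational]
    intro j hj
    obtain ⟨i, hi, hji⟩ := exists_inv_exp hj
    have h1 : ∀ g : G, (g ^ i) ^ j = g := by
      intro g
      rw [← pow_mul, mul_comm, pow_mul, hji]
    rw [← sum_pow hi h1]
    have h2 := hdouble (fun g => f (g ^ i) - f g) W _ _ inferInstance ρ hρ.1 hW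
    have h3 : ∀ z ∈ C, ∑ g, (((fun g => f (g ^ i) - f g) (g * z) : ℚ) : ℂ) * ρ.character g =
        ∑ g, (f (g ^ i) : ℂ) * ρ.character g - ∑ g, (f g : ℂ) * ρ.character g := by
      intro z hz
      rw [hC, Finset.mem_filter] at hz
      rw [← Finset.sum_sub_distrib]
      refine Finset.sum_congr rfl fun g _ => ?_
      show ((f ((g * z) ^ i) - f (g * z) : ℚ) : ℂ) * ρ.character g = _
      rw [ht i hi g z hz.2]
      push_cast
      ring
    rw [Finset.sum_congr rfl h3, Finset.sum_const, nsmul_eq_mul] at h2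
    rcases mul_eq_zero.1 h2 with h4 | h4
    · exfalso
      apply hCpos
      exact_mod_cast h4
    · exact sub_eq_zero.1 h4
  · intro h
    have key : ∀ j : ℕ, j.Coprime (Nat.card G) → ∀ g : G,
        C.card * (f (g ^ j) - f g) - ∑ z ∈ C, (f ((g * z) ^ j) - f (g * z)) = 0 := by
      intro j hj
      set τ : G → ℚ := fun g => f (g ^ j) - f g with hτ
      have hτcl : IsClass τ := pow_class hcl j
      have hτodd : ∀ g, τ (c * g) = -τ g := fun g => pow_odd hc hc2 hc1 hs hj g
      refine eq_zero_of_odd hc hc2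
        (τ := fun g => C.card * τ g - ∑ z ∈ C, τ (g * z)) ?_ ?_ ?_
      · intro g k
        simp only [hτcl g k]
        congr 1
        refine Finset.sum_bij (fun z _ => k * z * k⁻¹) ?_ ?_ ?_ ?_
        · intro z hz
          rw [hC, Finset.mem_filter] at hz ⊢
          exact ⟨Finset.mem_univ _, (inferInstance : (commutator G).Normal).conj_mem z hz.2 k⟩
        · intro a _ b _ hab
          exact mul_left_cancel (mul_right_cancel hab)
        · intro b hb
          rw [hC, Finset.mem_filter] at hb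
          refine ⟨k⁻¹ * b * k, ?_, by group⟩
          rw [hC, Finset.mem_filter]
          have := (inferInstance : (commutator G).Normal).conj_mem b hb.2 k⁻¹
          rw [inv_inv] at this
          exact ⟨Finset.mem_univ _, this⟩
        · intro z _
          have h1 := hτcl (g * (k * z * k⁻¹)) k
          rw [← h1]
          congr 1
          group
      · intro g
        simp only [hτodd]
        have h1 : ∀ z ∈ C, τ (c * g * z) = -τ (g * z) := by
          intro z _
          rw [mul_assoc, hτodd]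
        rw [Finset.sum_congr rfl h1, Finset.sum_neg_distrib]
        ring
      · intro W _ _ _ ρ hρ
        have e1 : ∑ g, (((fun g => C.card * τ g - ∑ z ∈ C, τ (g * z)) g : ℚ) : ℂ) *
            ρ.character g = C.card * ∑ g, (τ g : ℂ) * ρ.character g -
              ∑ z ∈ C, ∑ g, (τ (g * z) : ℂ) * ρ.character g := by
          rw [Finset.sum_comm, Finset.mul_sum, ← Finset.sum_sub_distrib]
          refine Finset.sum_congr rfl fun g _ => ?_
          push_cast
          rw [sub_mul, Finset.sum_mul]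
          ring
        rw [e1]
        by_cases hW : 1 < Module.finrank ℂ W
        · have h1 := (weighted_rational ρ f).1 (h W _ _ inferInstance ρ hρ hW)
          obtain ⟨i, hi, hji⟩ := exists_inv_exp hj
          have h2 := h1 i hi
          rw [← sum_pow hj hji] at h2
          have h3 : ∑ g, (τ g : ℂ) * ρ.character g = 0 := by
            have : ∑ g, (τ g : ℂ) * ρ.character g =
                ∑ g, (f (g ^ j) : ℂ) * ρ.character g - ∑ g, (f g : ℂ) * ρ.character g := by
              rw [← Finset.sum_sub_distrib]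
              refine Finset.sum_congr rfl fun g _ => ?_
              simp only [hτ]
              push_cast
              ring
            rw [this, h2, sub_self]
          rw [h3, hdouble τ W _ _ inferInstance ρ hρ.1 hW, mul_zero, sub_zero]
        · have h2 := finrank_ne ρ hρ.1
          have h3 : Module.finrank ℂ W ≠ 0 := by exact_mod_cast h2
          have h4 : Module.finrank ℂ W = 1 := by omega
          have h5 : ∀ z ∈ C, ∑ g, (τ (g * z) : ℂ) * ρ.character g =
              ∑ g, (τ g : ℂ) * ρ.character g := by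
            intro z hz
            rw [hC, Finset.mem_filter] at hz
            rw [hshift]
            refine Finset.sum_congr rfl fun g _ => ?_
            rw [char_ab ρ h4 g z⁻¹ (Subgroup.inv_mem _ hz.2)]
          rw [Finset.sum_congr rfl h5, Finset.sum_const, nsmul_eq_mul, sub_self]
    intro j hj g z hz
    have h1 := key j hj g
    have h2 := key j hj (g * z)
    have h3 : ∑ w ∈ C, (f ((g * z * w) ^ j) - f (g * z * w)) =
        ∑ w ∈ C, (f ((g * w) ^ j) - f (g * w)) := by
      refine Finset.sum_bij (fun w _ => z * w) ?_ ?_ ?_ ?_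
      · intro w hw
        rw [hC, Finset.mem_filter] at hw ⊢
        exact ⟨Finset.mem_univ _, Subgroup.mul_mem _ hz hw.2⟩
      · intro a _ b _ hab
        exact mul_left_cancel hab
      · intro b hb
        rw [hC, Finset.mem_filter] at hb
        refine ⟨z⁻¹ * b, ?_, mul_inv_cancel_left z b⟩
        rw [hC, Finset.mem_filter]
        exact ⟨Finset.mem_univ _, Subgroup.mul_mem _ (Subgroup.inv_mem _ hz) hb.2⟩
      · intro w _
        rw [mul_assoc g z w]
    rw [h3] at h2
    have h4 : (C.card : ℚ) * ((f ((g * z) ^ j) - f (g * z)) - (f (g ^ j) - f g)) = 0 := by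
      linarith
    rcases mul_eq_zero.1 h4 with h5 | h5
    · exact absurd h5 hCpos
    · exact sub_eq_zero.1 h5

end main

/-- scalar products with the average over the conjugates -/
lemma sum_cav {W : Type} [AddCommGroup W] [Module ℂ W] (ρ : Representation ℂ G W) (F : G → ℚ) :
    ∑ g, ((cav F g : ℚ) : ℂ) * ρ.character g = ∑ g, (F g : ℂ) * ρ.character g := by
  have hG : (Fintype.card G : ℂ) ≠ 0 := by
    have : 0 < Fintype.card G := Fintype.card_pos
    exact_mod_cast this.ne'
  have h1 : ∀ g : G, ((cav F g : ℚ) : ℂ) * ρ.character g =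
      (∑ h : G, (F (h⁻¹ * g * h) : ℂ) * ρ.character g) / Fintype.card G := by
    intro g
    unfold cav
    push_cast
    rw [div_mul_eq_mul_div, Finset.sum_mul]
  rw [Finset.sum_congr rfl fun g _ => h1 g, ← Finset.sum_div, Finset.sum_comm]
  have h2 : ∀ h : G, ∑ g, (F (h⁻¹ * g * h) : ℂ) * ρ.character g =
      ∑ g, (F g : ℂ) * ρ.character g := by
    intro h
    refine Fintype.sum_equiv ((Equiv.mulLeft h⁻¹).trans (Equiv.mulRight h)) _ _ fun g => ?_
    have h3 : ((Equiv.mulLeft h⁻¹).trans (Equiv.mulRight h)) g = h⁻¹ * g * h := rfl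
    rw [h3]
    congr 1
    have := Representation.char_conj ρ g h⁻¹
    rw [inv_inv] at this
    exact this.symm
  rw [Finset.sum_congr rfl fun h _ => h2 h, Finset.sum_const, nsmul_eq_mul, Finset.card_univ,
    mul_comm, mul_div_assoc, div_self hG, mul_one]

end Pool.Agent.V7H4.EC
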