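import Pool.Agent.V7H4.EC.I
import Pool.Agent.V7H4.CT.Ff

/-!
# Exact criterion for CM fields
-/

set_option autoImplicit false

open scoped Classical
open NumberField

namespace Pool.Agent.V7H4.EC

open Pool.Agent.Results.MP_a2beea_nt.AveragedAndAbelian Pool.Agent.N770.CP Pool.Agent.V7H4.CT

variable {E K : Type} [Field E] [NumberField E] [Field K] [NumberField K]
  [IsGalois ℚ K] [IsCMField K]

lemma mem_avg_iff {f : (K ≃ₐ[ℚ] K) → ℚ} (hf : IsCMFunction f) :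
    f ∈ avgSpan K ↔ Pool.Agent.Q11.CZ.ZInv f := by
  rw [(result K).1]
  exact ⟨fun h => h.2, fun h => ⟨hf, h⟩⟩

lemma mem_sup_iff' {f : (K ≃ₐ[ℚ] K) → ℚ} (hf : IsCMFunction f) :
    f ∈ avgSpan K ⊔ abSpan K ↔ Pool.Agent.Q11.CZ.Twist f := by
  rw [(result K).2.1]
  exact ⟨fun h => h.2, fun h => ⟨hf, h⟩⟩

lemma a0_avg {Φ : Finset (E →ₐ[ℚ] K)} (hΦ : IsCMType Φ) (ψ : E →ₐ[ℚ] K) :
    a0 ψ Φ ∈ avgSpan K ↔
      Pool.Agent.Q11.CZ.ZInv (Pool.Agent.Q11.CZ.a0 ψ Φ : (K ≃ₐ[ℚ] K) → ℚ) := by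
  rw [mem_avg_iff (a0_cm ψ hΦ), a0_eq]

lemma a0_sup {Φ : Finset (E →ₐ[ℚ] K)} (hΦ : IsCMType Φ) (ψ : E →ₐ[ℚ] K) :
    a0 ψ Φ ∈ avgSpan K ⊔ abSpan K ↔
      Pool.Agent.Q11.CZ.Twist (Pool.Agent.Q11.CZ.a0 ψ Φ : (K ≃ₐ[ℚ] K) → ℚ) := by
  rw [mem_sup_iff' (a0_cm ψ hΦ), a0_eq]

lemma height_avg {Φ : Finset (E →ₐ[ℚ] K)} (hΦ : IsCMType Φ) :
    heightFn Φ ∈ avgSpan K ↔
      Pool.Agent.Q11.CZ.ZInv (Pool.Agent.Q11.CZ.T Φ : (K ≃ₐ[ℚ] K) → ℚ) := by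
  rw [mem_avg_iff (height_cm hΦ), heightFn_eq]

lemma height_sup {Φ : Finset (E →ₐ[ℚ] K)} (hΦ : IsCMType Φ) :
    heightFn Φ ∈ avgSpan K ⊔ abSpan K ↔
      Pool.Agent.Q11.CZ.Twist (Pool.Agent.Q11.CZ.T Φ : (K ≃ₐ[ℚ] K) → ℚ) := by
  rw [mem_sup_iff' (height_cm hΦ), heightFn_eq]

omit [IsGalois ℚ K] in
lemma conj_ne_one : conjugation K ≠ 1 := by
  intro h
  apply IsCMField.complexConj_ne_one K
  apply AlgEquiv.ext
  intro x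
  exact congrArg (fun g : K ≃ₐ[ℚ] K => g x) h

/-- criterion for one function, first span -/
theorem mem_avg_rat {f : (K ≃ₐ[ℚ] K) → ℚ} (hf : IsCMFunction f) : f ∈ avgSpan K ↔
    ∀ (W : Type) (_ : AddCommGroup W) (_ : Module ℂ W) (_ : FiniteDimensional ℂ W)
      (ρ : Representation ℂ (K ≃ₐ[ℚ] K) W), Odd' (conjugation K) ρ →
        ∃ q : ℚ, ∑ g, (f g : ℂ) * ρ.character g = (q : ℂ) := by
  obtain ⟨h1, s, h2⟩ := hf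
  rw [mem_avg_iff ⟨h1, s, h2⟩]
  exact zinv_iff_rat Pool.Agent.Q11.CZ.conj_comm Pool.Agent.Q11.CZ.conj_mul_self conj_ne_one h1 h2

/-- criterion for one function, second span -/
theorem mem_sup_rat {f : (K ≃ₐ[ℚ] K) → ℚ} (hf : IsCMFunction f) :
    f ∈ avgSpan K ⊔ abSpan K ↔
    ∀ (W : Type) (_ : AddCommGroup W) (_ : Module ℂ W) (_ : FiniteDimensional ℂ W)
      (ρ : Representation ℂ (K ≃ₐ[ℚ] K) W), Odd' (conjugation K) ρ → 1 < Module.finrank ℂ W →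
        ∃ q : ℚ, ∑ g, (f g : ℂ) * ρ.character g = (q : ℂ) := by
  obtain ⟨h1, s, h2⟩ := hf
  rw [mem_sup_iff' ⟨h1, s, h2⟩]
  exact twist_iff_rat Pool.Agent.Q11.CZ.conj_comm Pool.Agent.Q11.CZ.conj_mul_self conj_ne_one h1 h2

omit [IsGalois ℚ K] [IsCMField K] in
lemma pair_a0 {W : Type} [AddCommGroup W] [Module ℂ W] (ρ : Representation ℂ (K ≃ₐ[ℚ] K) W)
    (ψ : E →ₐ[ℚ] K) (Φ : Finset (E →ₐ[ℚ] K)) :
    ∑ g, (a0 ψ Φ g : ℂ) * ρ.character g =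
      ∑ g, (((if act g ψ ∈ Φ then 1 else 0 : ℚ) : ℚ) : ℂ) * ρ.character g := by
  rw [a0_eq, Pool.Agent.Q11.CZ.a0_eq_cav, sum_cav]
  rfl

omit [IsGalois ℚ K] [IsCMField K] in
lemma pair_height {W : Type} [AddCommGroup W] [Module ℂ W]
    (ρ : Representation ℂ (K ≃ₐ[ℚ] K) W) (Φ : Finset (E →ₐ[ℚ] K)) :
    ∑ g, (heightFn Φ g : ℂ) * ρ.character g =
      ∑ g, ((((Φ.filter fun ψ => act g ψ ∈ Φ).card : ℚ) : ℚ) : ℂ) * ρ.character g := by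
  rw [heightFn_eq, Pool.Agent.Q11.CZ.T_eq_cav, sum_cav]
  rfl

omit [IsGalois ℚ K] in
lemma hcc (g : K ≃ₐ[ℚ] K) : conjugation K * g = g * conjugation K :=
  Pool.Agent.Q11.CZ.conj_comm g

omit [IsGalois ℚ K] in
lemma hcc2 : conjugation K * conjugation K = 1 := Pool.Agent.Q11.CZ.conj_mul_self

variable [IsCMField E]

theorem field_a0_avg (ψ₀ : E →ₐ[ℚ] K) :
    (∀ Φ : Finset (E →ₐ[ℚ] K), IsCMType Φ → ∀ ψ, a0 ψ Φ ∈ avgSpan K) ↔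
    ∀ (W : Type) (_ : AddCommGroup W) (_ : Module ℂ W) (_ : FiniteDimensional ℂ W)
      (ρ : Representation ℂ (K ≃ₐ[ℚ] K) W), OddFix ρ (conjugation K) ψ₀ →
        ∀ g, ∃ q : ℚ, ρ.character g = (q : ℂ) := by
  rw [← a0_zinv_rat hcc hcc2 conj_free ψ₀]
  exact forall_congr' fun Φ => forall_congr' fun hΦ => forall_congr' fun ψ => a0_avg hΦ ψ

theorem field_a0_sup (ψ₀ : E →ₐ[ℚ] K) :
    (∀ Φ : Finset (E →ₐ[ℚ] K), IsCMType Φ → ∀ ψ, a0 ψ Φ ∈ avgSpan K ⊔ abSpan K) ↔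
    ∀ (W : Type) (_ : AddCommGroup W) (_ : Module ℂ W) (_ : FiniteDimensional ℂ W)
      (ρ : Representation ℂ (K ≃ₐ[ℚ] K) W), OddFix ρ (conjugation K) ψ₀ →
        1 < Module.finrank ℂ W → ∀ g, ∃ q : ℚ, ρ.character g = (q : ℂ) := by
  rw [← a0_twist_rat hcc hcc2 conj_free ψ₀]
  exact forall_congr' fun Φ => forall_congr' fun hΦ => forall_congr' fun ψ => a0_sup hΦ ψ

theorem field_height_avg (ψ₀ : E →ₐ[ℚ] K) :
    (∀ Φ : Finset (E →ₐ[ℚ] K), IsCMType Φ → heightFn Φ ∈ avgSpan K) ↔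
    ∀ (W : Type) (_ : AddCommGroup W) (_ : Module ℂ W) (_ : FiniteDimensional ℂ W)
      (ρ : Representation ℂ (K ≃ₐ[ℚ] K) W), OddFix ρ (conjugation K) ψ₀ →
        ∀ g, ∃ q : ℚ, ρ.character g + ρ.character g⁻¹ = (q : ℂ) := by
  rw [← T_zinv_rat hcc hcc2 conj_free ψ₀]
  exact forall_congr' fun Φ => forall_congr' fun hΦ => height_avg hΦ

theorem field_height_sup (ψ₀ : E →ₐ[ℚ] K) :
    (∀ Φ : Finset (E →ₐ[ℚ] K), IsCMType Φ → heightFn Φ ∈ avgSpan K ⊔ abSpan K) ↔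
    ∀ (W : Type) (_ : AddCommGroup W) (_ : Module ℂ W) (_ : FiniteDimensional ℂ W)
      (ρ : Representation ℂ (K ≃ₐ[ℚ] K) W), OddFix ρ (conjugation K) ψ₀ →
        1 < Module.finrank ℂ W → ∀ g, ∃ q : ℚ, ρ.character g + ρ.character g⁻¹ = (q : ℂ) := by
  rw [← T_twist_rat hcc hcc2 conj_free ψ₀]
  exact forall_congr' fun Φ => forall_congr' fun hΦ => height_sup hΦ

omit [IsGalois ℚ K] [IsCMField E] in
lemma card_types (P : Finset (E →ₐ[ℚ] K) → Prop) :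
    Nat.card {Φ : Finset (E →ₐ[ℚ] K) // IsCMType Φ ∧ P Φ} =
      ((Pool.Agent.Q11.CZ.halves (conjugation K) (E →ₐ[ℚ] K)).filter P).card := by
  rw [Nat.card_eq_fintype_card, Fintype.card_subtype]
  congr 1
  ext Φ
  simp only [Finset.mem_filter, Finset.mem_univ, true_and, Pool.Agent.Q11.CZ.mem_halves]
  rfl

omit [IsGalois ℚ K] [IsCMField E] in
lemma card_types' :
    Nat.card {Φ : Finset (E →ₐ[ℚ] K) // IsCMType Φ} =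
      (Pool.Agent.Q11.CZ.halves (conjugation K) (E →ₐ[ℚ] K)).card := by
  rw [Nat.card_eq_fintype_card, Fintype.card_subtype]
  congr 1

theorem dich (V : Submodule ℚ ((K ≃ₐ[ℚ] K) → ℚ)) (hV : V = avgSpan K ∨ V = avgSpan K ⊔ abSpan K) :
    ((∃ Φ : Finset (E →ₐ[ℚ] K), IsCMType Φ ∧ heightFn Φ ∉ V) →
      Nat.card {Φ : Finset (E →ₐ[ℚ] K) // IsCMType Φ} ≤
        4 * Nat.card {Φ : Finset (E →ₐ[ℚ] K) // IsCMType Φ ∧ heightFn Φ ∉ V}) ∧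
    ((∃ (Φ : Finset (E →ₐ[ℚ] K)) (ψ : E →ₐ[ℚ] K), IsCMType Φ ∧ a0 ψ Φ ∉ V) →
      ∀ ψ : E →ₐ[ℚ] K, Nat.card {Φ : Finset (E →ₐ[ℚ] K) // IsCMType Φ} ≤
        2 * Nat.card {Φ : Finset (E →ₐ[ℚ] K) // IsCMType Φ ∧ a0 ψ Φ ∉ V}) := by
  have hfil : ∀ P Q : Finset (E →ₐ[ℚ] K) → Prop, (∀ Φ, IsCMType Φ → (P Φ ↔ Q Φ)) →
      ((Pool.Agent.Q11.CZ.halves (conjugation K) (E →ₐ[ℚ] K)).filter P).card =
        ((Pool.Agent.Q11.CZ.halves (conjugation K) (E →ₐ[ℚ] K)).filter Q).card := by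
    intro P Q h
    congr 1
    refine Finset.filter_congr fun Φ hΦ => ?_
    rw [Pool.Agent.Q11.CZ.mem_halves] at hΦ
    exact h Φ hΦ
  rcases hV with rfl | rfl
  · refine ⟨?_, ?_⟩
    · rintro ⟨Φ₁, h1, h2⟩
      rw [height_avg h1] at h2
      rw [card_types', card_types]
      rw [hfil _ (fun Φ => ¬ Pool.Agent.Q11.CZ.ZInv
        (Pool.Agent.Q11.CZ.T Φ : (K ≃ₐ[ℚ] K) → ℚ)) (fun Φ hΦ => by rw [height_avg hΦ])]
      convert T_zinv_quarter hcc hcc2 conj_free h1 h2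
    · rintro ⟨Φ₁, ψ₁, h1, h2⟩ ψ
      rw [a0_avg h1] at h2
      rw [card_types', card_types]
      rw [hfil _ (fun Φ => ¬ Pool.Agent.Q11.CZ.ZInv
        (Pool.Agent.Q11.CZ.a0 ψ Φ : (K ≃ₐ[ℚ] K) → ℚ)) (fun Φ hΦ => by rw [a0_avg hΦ])]
      convert a0_zinv_half hcc hcc2 conj_free h1 h2 ψ
  · refine ⟨?_, ?_⟩
    · rintro ⟨Φ₁, h1, h2⟩
      rw [height_sup h1] at h2
      rw [card_types', card_types]
      rw [hfil _ (fun Φ => ¬ Pool.Agent.Q11.CZ.Twist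
        (Pool.Agent.Q11.CZ.T Φ : (K ≃ₐ[ℚ] K) → ℚ)) (fun Φ hΦ => by rw [height_sup hΦ])]
      convert T_twist_quarter hcc hcc2 conj_free h1 h2
    · rintro ⟨Φ₁, ψ₁, h1, h2⟩ ψ
      rw [a0_sup h1] at h2
      rw [card_types', card_types]
      rw [hfil _ (fun Φ => ¬ Pool.Agent.Q11.CZ.Twist
        (Pool.Agent.Q11.CZ.a0 ψ Φ : (K ≃ₐ[ℚ] K) → ℚ)) (fun Φ hΦ => by rw [a0_sup hΦ])]
      convert a0_twist_half hcc hcc2 conj_free h1 h2 ψ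

end Pool.Agent.V7H4.EC
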